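import Pool.Agent.R967.Per.Loc

/-!
Areas of neighbourhoods of arcs of the perimeter.
-/

set_option autoImplicit false

namespace Pool.Agent.R967.Per

open H984P H984N MeasureTheory Filter Topology Pool.Agent.Y995.LG
open scoped ENNReal

/-- The area of the `ρ`-neighbourhood of the image of `W`. -/
noncomputable def ar (f : C(unitInterval, ℂ)) (ρ : ℝ) (W : Set unitInterval) : ℝ :=
  volume.real (Metric.thickening ρ (f '' W))

theorem fin_thick (f : C(unitInterval, ℂ)) (ρ : ℝ) (W : Set unitInterval) :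
    volume (Metric.thickening ρ (f '' W)) ≠ ⊤ := by
  have h1 : Bornology.IsBounded (f '' W) :=
    ((isCompact_range f.continuous).isBounded).subset (Set.image_subset_range _ _)
  exact (h1.thickening).measure_lt_top.ne

theorem ar_nonneg (f : C(unitInterval, ℂ)) (ρ : ℝ) (W : Set unitInterval) : 0 ≤ ar f ρ W :=
  measureReal_nonneg

theorem ar_mono (f : C(unitInterval, ℂ)) (ρ : ℝ) {W W' : Set unitInterval} (h : W ⊆ W') :
    ar f ρ W ≤ ar f ρ W' :=
  measureReal_mono (Metric.thickening_subset_of_subset ρ (Set.image_mono h)) (fin_thick f ρ W')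

theorem ar_union (f : C(unitInterval, ℂ)) (ρ : ℝ) (W W' : Set unitInterval) :
    ar f ρ (W ∪ W') ≤ ar f ρ W + ar f ρ W' := by
  unfold ar
  rw [Set.image_union, Metric.thickening_union]
  exact measureReal_union_le _ _

theorem ar_biUnion (f : C(unitInterval, ℂ)) (ρ : ℝ) (S : Finset ℕ) (W : ℕ → Set unitInterval) :
    ar f ρ (⋃ j ∈ S, W j) ≤ ∑ j ∈ S, ar f ρ (W j) := by
  classical
  induction S using Finset.induction_on with
  | empty =>
    simp [ar]
  | insert j S hj ih =>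
    rw [Finset.sum_insert hj, Finset.set_biUnion_insert]
    exact (ar_union f ρ _ _).trans (by linarith)

/-- The area inside of an arc. -/
theorem ar_aff {p q : X} {z : ℂ} {A B : unitInterval} {lam : unitInterval → unitInterval}
    {r : ℝ} (haff : Aff p q z A B lam r) {s t : unitInterval} (hs : s ∈ Set.Icc A B)
    (ht : t ∈ Set.Icc A B) (hst : s ≤ t) (ρ : ℝ) :
    ar p.1 ρ (Set.Icc s t) = ar q.1 ρ (Set.Icc (lam s) (lam t)) := by
  have hr := haff.ρ0
  have hst' : (s : ℝ) ≤ t := hst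
  have himg : p.1 '' Set.Icc s t = (fun w => z + w) '' (q.1 '' Set.Icc (lam s) (lam t)) := by
    ext w
    constructor
    · rintro ⟨u, hu, rfl⟩
      have hu' : u ∈ Set.Icc A B := ⟨hs.1.trans hu.1, hu.2.trans ht.2⟩
      exact ⟨q.1 (lam u), ⟨lam u, ⟨haff.mono hs hu' hu.1, haff.mono hu' ht hu.2⟩, rfl⟩,
        (haff.val u hu').symm⟩
    · rintro ⟨_, ⟨y, hy, rfl⟩, rfl⟩
      have hy1 : (lam s : ℝ) ≤ y := hy.1
      have hy2 : (y : ℝ) ≤ lam t := hy.2
      have h1 := haff.aff s hs t ht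
      have hm : s + ((y : ℝ) - lam s) / r ∈ Set.Icc (s : ℝ) t := by
        constructor
        · have : 0 ≤ ((y : ℝ) - lam s) / r := div_nonneg (by linarith) hr.le
          linarith
        · have : ((y : ℝ) - lam s) / r ≤ (t : ℝ) - s := by
            rw [div_le_iff₀ hr]
            nlinarith
          linarith
      obtain ⟨u, hu⟩ : ∃ u : unitInterval, (u : ℝ) = s + ((y : ℝ) - lam s) / r :=
        ⟨⟨_, s.2.1.trans hm.1, hm.2.trans t.2.2⟩, rfl⟩
      have hust : u ∈ Set.Icc s t := by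
        constructor
        · have : (s : ℝ) ≤ u := by rw [hu]; exact hm.1
          exact this
        · have : (u : ℝ) ≤ t := by rw [hu]; exact hm.2
          exact this
      have hu' : u ∈ Set.Icc A B := ⟨hs.1.trans hust.1, hust.2.trans ht.2⟩
      refine ⟨u, hust, ?_⟩
      rw [haff.val u hu']
      have h2 := haff.aff s hs u hu'
      have h3 : lam u = y := by
        refine Subtype.ext ?_
        have : r * ((u : ℝ) - s) = (y : ℝ) - lam s := by
          rw [hu]
          field_simp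
          ring
        linarith
      rw [h3]
  unfold ar
  rw [himg]
  have hth : ∀ E : Set ℂ, Metric.thickening ρ ((fun w => z + w) '' E) =
      (fun w => z + w) '' Metric.thickening ρ E := by
    intro E
    ext x
    simp only [Metric.mem_thickening_iff, Set.mem_image, exists_exists_and_eq_and]
    constructor
    · rintro ⟨w, hw, h⟩
      refine ⟨x - z, ⟨w, hw, ?_⟩, by ring⟩
      rw [dist_eq_norm] at h ⊢
      rwa [show x - z - w = x - (z + w) by ring]
    · rintro ⟨y, ⟨w, hw, h⟩, rfl⟩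
      exact ⟨w, hw, by rwa [dist_add_left]⟩
  rw [hth]
  unfold Measure.real
  rw [Set.image_add_left, measure_preimage_add]

/-- The arc `[s, t]` has area of the right order. -/
def Good (f : C(unitInterval, ℂ)) (T c C : ℝ) (s t : unitInterval) : Prop :=
  ∀ᶠ ρ : ℝ in 𝓝[>] 0, c * (T * ((t : ℝ) - s)) * ρ ^ (1/4 : ℝ) ≤ ar f ρ (Set.Icc s t) ∧
    ar f ρ (Set.Icc s t) ≤ C * (T * ((t : ℝ) - s)) * ρ ^ (1/4 : ℝ)

theorem good_aff {p q : X} {z : ℂ} {A B : unitInterval} {lam : unitInterval → unitInterval}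
    {r : ℝ} (haff : Aff p q z A B lam r) {c C : ℝ}
    (hq : ∀ s t : unitInterval, s < t → Good q.1 q.2 c C s t) {s t : unitInterval}
    (hs : s ∈ Set.Icc A B) (ht : t ∈ Set.Icc A B) (hst : s < t) : Good p.1 p.2 c C s t := by
  have h1 := haff.aff s hs t ht
  have hst' : (s : ℝ) < t := hst
  have hlt : lam s < lam t := by
    have : 0 < r * ((t : ℝ) - s) := mul_pos haff.ρ0 (by linarith)
    have h2 : (lam s : ℝ) < lam t := by linarith
    exact h2
  have e : p.2 * ((t : ℝ) - s) = q.2 * ((lam t : ℝ) - lam s) := by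
    rw [h1, haff.pq, mul_assoc]
  filter_upwards [hq _ _ hlt] with ρ hρ
  rw [e, ar_aff haff hs ht hst.le]
  exact hρ

/-- The points of the uniform partition. -/
noncomputable def pnt (m j : ℕ) : unitInterval := Set.projIcc 0 1 zero_le_one ((j : ℝ) / m)

/-- The pieces of the uniform partition. -/
noncomputable def pce (m j : ℕ) : Set unitInterval := Set.Icc (pnt m j) (pnt m (j + 1))

theorem pnt_val {m j : ℕ} (hm : 0 < m) (hj : j ≤ m) : (pnt m j : ℝ) = (j : ℝ) / m := by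
  have hm' : (0 : ℝ) < m := by exact_mod_cast hm
  have hj' : (j : ℝ) ≤ m := by exact_mod_cast hj
  unfold pnt
  rw [Set.projIcc_of_mem]
  exact ⟨by positivity, by rw [div_le_one hm']; exact hj'⟩

theorem pnt_lt {m j : ℕ} (hj : j < m) : pnt m j < pnt m (j + 1) := by
  have hm : 0 < m := by omega
  have hm' : (0 : ℝ) < m := by exact_mod_cast hm
  have h : (pnt m j : ℝ) < pnt m (j + 1) := by
    rw [pnt_val hm hj.le, pnt_val hm hj]
    push_cast
    exact div_lt_div_of_pos_right (by linarith) hm'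
  exact h

theorem pnt_sub {m j : ℕ} (hj : j < m) : (pnt m (j + 1) : ℝ) - pnt m j = 1 / m := by
  have hm : 0 < m := by omega
  rw [pnt_val hm hj.le, pnt_val hm hj]
  push_cast
  ring

theorem exists_pce {m : ℕ} (hm : 0 < m) (u : unitInterval) : ∃ j < m, u ∈ pce m j := by
  have hm' : (0 : ℝ) < m := by exact_mod_cast hm
  rcases eq_or_lt_of_le u.2.2 with h | h
  · refine ⟨m - 1, by omega, ?_, ?_⟩
    · have : (pnt m (m - 1) : ℝ) ≤ u := by rw [h]; exact (pnt m (m - 1)).2.2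
      exact this
    · have : (u : ℝ) ≤ pnt m (m - 1 + 1) := by
        rw [Nat.sub_add_cancel hm, pnt_val hm le_rfl, div_self hm'.ne']
        exact u.2.2
      exact this
  · have h0 : 0 ≤ (m : ℝ) * u := mul_nonneg hm'.le u.2.1
    have h1 : ⌊(m : ℝ) * u⌋₊ < m := by
      rw [Nat.floor_lt h0]
      nlinarith
    refine ⟨⌊(m : ℝ) * u⌋₊, h1, ?_, ?_⟩
    · have : (pnt m ⌊(m : ℝ) * u⌋₊ : ℝ) ≤ u := by
        rw [pnt_val hm h1.le, div_le_iff₀ hm']
        have h3 := Nat.floor_le h0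
        linarith
      exact this
    · have : (u : ℝ) ≤ pnt m (⌊(m : ℝ) * u⌋₊ + 1) := by
        rw [pnt_val hm h1, le_div_iff₀ hm']
        push_cast
        have h3 := (Nat.lt_floor_add_one ((m : ℝ) * u)).le
        linarith
      exact this

theorem vol_Ico (s t : unitInterval) : volume (Set.Ico s t) = ENNReal.ofReal ((t : ℝ) - s) := by
  rw [unitInterval.volume_Ico]

/-- Total length of the pieces contained in `O`. -/
theorem card_le {m : ℕ} {S : Finset ℕ} (hS : ∀ j ∈ S, j < m) {O : Set unitInterval}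
    (hO : ∀ j ∈ S, pce m j ⊆ O) : ENNReal.ofReal ((S.card : ℝ) / m) ≤ volume O := by
  have hdis : Set.PairwiseDisjoint (↑S) (fun j => Set.Ico (pnt m j) (pnt m (j + 1))) := by
    intro i hi j hj hij
    have hi' := hS i hi
    have hj' := hS j hj
    have hm : 0 < m := by omega
    have hm' : (0 : ℝ) < m := by exact_mod_cast hm
    have key : ∀ a b : ℕ, a < m → b < m → a < b →
        Disjoint (Set.Ico (pnt m a) (pnt m (a + 1))) (Set.Ico (pnt m b) (pnt m (b + 1))) := by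
      intro a b ha hb hab
      rw [Set.disjoint_left]
      rintro u ⟨-, h1⟩ ⟨h2, -⟩
      have h3 : (u : ℝ) < pnt m (a + 1) := h1
      have h4 : (pnt m b : ℝ) ≤ u := h2
      rw [pnt_val hm ha] at h3
      rw [pnt_val hm hb.le] at h4
      have h5 : ((a + 1 : ℕ) : ℝ) ≤ b := by exact_mod_cast hab
      have h6 : ((a + 1 : ℕ) : ℝ) / m ≤ (b : ℝ) / m := div_le_div_of_nonneg_right h5 hm'.le
      linarith
    rcases lt_or_gt_of_ne hij with h | h
    · exact key i j hi' hj' h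
    · exact (key j i hj' hi' h).symm
  have h1 : volume (⋃ j ∈ S, Set.Ico (pnt m j) (pnt m (j + 1))) = ENNReal.ofReal ((S.card : ℝ) / m) := by
    rw [measure_biUnion_finset hdis (fun j _ => measurableSet_Ico)]
    have h2 : ∀ j ∈ S, volume (Set.Ico (pnt m j) (pnt m (j + 1))) = ENNReal.ofReal (1 / m) := by
      intro j hj
      rw [vol_Ico, pnt_sub (hS j hj)]
    rw [Finset.sum_congr rfl h2, Finset.sum_const, nsmul_eq_mul, ← ENNReal.ofReal_natCast,
      ← ENNReal.ofReal_mul (Nat.cast_nonneg _), mul_one_div]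
  rw [← h1]
  refine measure_mono (Set.iUnion₂_subset fun j hj => ?_)
  exact Set.Ico_subset_Icc_self.trans (hO j hj)

theorem le_card {m : ℕ} {S : Finset ℕ} (hS : ∀ j ∈ S, j < m) {K : Set unitInterval}
    (hK : K ⊆ ⋃ j ∈ S, pce m j) : volume K ≤ ENNReal.ofReal ((S.card : ℝ) / m) := by
  refine (measure_mono hK).trans ((measure_biUnion_finset_le _ _).trans ?_)
  have h2 : ∀ j ∈ S, volume (pce m j) = ENNReal.ofReal (1 / m) := by
    intro j hj
    unfold pce
    rw [unitInterval.volume_Icc, pnt_sub (hS j hj)]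
  rw [Finset.sum_congr rfl h2, Finset.sum_const, nsmul_eq_mul, ← ENNReal.ofReal_natCast,
    ← ENNReal.ofReal_mul (Nat.cast_nonneg _), mul_one_div]

/-- Pieces of a compact set of times in an open set of times in the square. -/
theorem pieces {p : X} {c C : ℝ}
    (hloc : ∀ t0 : unitInterval, p.1 t0 ∈ Pool.Agent.Y995.LG.sq → ∃ A B : unitInterval,
      Set.Icc A B ∈ 𝓝 t0 ∧ ∀ s ∈ Set.Icc A B, ∀ t ∈ Set.Icc A B, s < t → Good p.1 p.2 c C s t)
    {K O : Set unitInterval} (hK : IsCompact K) (hO : IsOpen O) (hKO : K ⊆ O)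
    (hKs : ∀ t ∈ K, p.1 t ∈ Pool.Agent.Y995.LG.sq) :
    ∃ (m : ℕ) (S : Finset ℕ), 0 < m ∧ (∀ j ∈ S, j < m) ∧ K ⊆ (⋃ j ∈ S, pce m j) ∧
      (∀ j ∈ S, pce m j ⊆ O) ∧ (∀ j ∈ S, Good p.1 p.2 c C (pnt m j) (pnt m (j + 1))) ∧
      ∀ j ∈ S, ∀ u ∈ pce m j, p.1 u ∈ Pool.Agent.Y995.LG.sq := by
  classical
  have hsq : IsOpen Pool.Agent.Y995.LG.sq := by
    have e : Pool.Agent.Y995.LG.sq = {z : ℂ | 0 < z.re} ∩ {z | z.re < 1} ∩ {z | 0 < z.im} ∩
        {z | z.im < 1} := by
      ext z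
      simp only [Pool.Agent.Y995.LG.sq, Set.mem_inter_iff, Set.mem_ofPred_eq]
      tauto
    rw [e]
    exact (((isOpen_lt continuous_const Complex.continuous_re).inter
      (isOpen_lt Complex.continuous_re continuous_const)).inter
      (isOpen_lt continuous_const Complex.continuous_im)).inter
      (isOpen_lt Complex.continuous_im continuous_const)
  choose! A B hAB hgood using hloc
  have hcov : K ⊆ ⋃ x : K, (interior (Set.Icc (A x.1) (B x.1)) ∩ O ∩
      p.1 ⁻¹' Pool.Agent.Y995.LG.sq) := by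
    intro x hx
    exact Set.mem_iUnion.2 ⟨⟨x, hx⟩, ⟨mem_interior_iff_mem_nhds.2 (hAB x (hKs x hx)), hKO hx⟩,
      hKs x hx⟩
  obtain ⟨δ, hδ, hleb⟩ := lebesgue_number_lemma_of_metric hK (fun x : K =>
    (isOpen_interior.inter hO).inter (hsq.preimage p.1.continuous)) hcov
  obtain ⟨m, hm⟩ := exists_nat_one_div_lt hδ
  refine ⟨m + 1, (Finset.range (m + 1)).filter (fun j => (pce (m + 1) j ∩ K).Nonempty),
    Nat.succ_pos m, ?_, ?_, ?_, ?_, ?_⟩
  · intro j hj
    exact Finset.mem_range.1 (Finset.mem_filter.1 hj).1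
  · intro x hx
    obtain ⟨j, hj, hxj⟩ := exists_pce (Nat.succ_pos m) x
    exact Set.mem_iUnion₂.2 ⟨j, Finset.mem_filter.2 ⟨Finset.mem_range.2 hj, x, hxj, hx⟩, hxj⟩
  all_goals
    intro j hj
    obtain ⟨hj1, x, hxj, hxK⟩ := Finset.mem_filter.1 hj
    rw [Finset.mem_range] at hj1
    obtain ⟨i, hi⟩ := hleb x hxK
    have hsub : pce (m + 1) j ⊆ Metric.ball x δ := by
      intro y hy
      rw [Metric.mem_ball, Subtype.dist_eq, Real.dist_eq]
      have e := pnt_sub hj1
      have h1 : (pnt (m + 1) j : ℝ) ≤ x := hxj.1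
      have h2 : (x : ℝ) ≤ pnt (m + 1) (j + 1) := hxj.2
      have h3 : (pnt (m + 1) j : ℝ) ≤ y := hy.1
      have h4 : (y : ℝ) ≤ pnt (m + 1) (j + 1) := hy.2
      push_cast at e
      rw [abs_lt]
      constructor <;> linarith
  · exact fun y hy => (hi (hsub hy)).1.2
  · have h0 : pnt (m + 1) j ∈ pce (m + 1) j := ⟨le_rfl, (pnt_lt hj1).le⟩
    have h1 : pnt (m + 1) (j + 1) ∈ pce (m + 1) j := ⟨(pnt_lt hj1).le, le_rfl⟩
    exact hgood i.1 (hKs _ i.2) _ (interior_subset (hi (hsub h0)).1.1) _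
      (interior_subset (hi (hsub h1)).1.1) (pnt_lt hj1)
  · exact fun y hy => (hi (hsub hy)).2

/-- Upper bound for compact sets of times. -/
theorem upper_K {p : X} {c C : ℝ} (hC : 0 < C) (hT : 0 < p.2)
    (hloc : ∀ t0 : unitInterval, p.1 t0 ∈ Pool.Agent.Y995.LG.sq → ∃ A B : unitInterval,
      Set.Icc A B ∈ 𝓝 t0 ∧ ∀ s ∈ Set.Icc A B, ∀ t ∈ Set.Icc A B, s < t → Good p.1 p.2 c C s t)
    {K O : Set unitInterval} (hK : IsCompact K) (hO : IsOpen O) (hKO : K ⊆ O)
    (hKs : ∀ t ∈ K, p.1 t ∈ Pool.Agent.Y995.LG.sq) {x : ℝ} (hx : volume O ≤ ENNReal.ofReal x)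
    (hx0 : 0 ≤ x) :
    ∀ᶠ ρ : ℝ in 𝓝[>] 0, ar p.1 ρ K ≤ C * (p.2 * x) * ρ ^ (1/4 : ℝ) := by
  obtain ⟨m, S, hm, hS, hcov, hSO, hgood, -⟩ := pieces hloc hK hO hKO hKs
  have hm' : (0 : ℝ) < m := by exact_mod_cast hm
  have hcard := (card_le hS hSO).trans hx
  rw [ENNReal.ofReal_le_ofReal_iff hx0] at hcard
  have hall : ∀ᶠ ρ : ℝ in 𝓝[>] 0, ∀ j ∈ S,
      ar p.1 ρ (pce m j) ≤ C * (p.2 * (1 / m)) * ρ ^ (1/4 : ℝ) := by
    rw [Finset.eventually_all]
    intro j hj
    filter_upwards [hgood j hj] with ρ hρ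
    rw [pnt_sub (hS j hj)] at hρ
    exact hρ.2
  filter_upwards [hall, self_mem_nhdsWithin] with ρ hρ hρ0
  have hρ4 : 0 < ρ ^ (1/4 : ℝ) := Real.rpow_pos_of_pos hρ0 _
  calc ar p.1 ρ K ≤ ar p.1 ρ (⋃ j ∈ S, pce m j) := ar_mono _ _ hcov
    _ ≤ ∑ j ∈ S, ar p.1 ρ (pce m j) := ar_biUnion _ _ _ _
    _ ≤ ∑ _j ∈ S, C * (p.2 * (1 / m)) * ρ ^ (1/4 : ℝ) := Finset.sum_le_sum hρ
    _ = C * (p.2 * ((S.card : ℝ) / m)) * ρ ^ (1/4 : ℝ) := by
        rw [Finset.sum_const, nsmul_eq_mul]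
        ring
    _ ≤ _ := by
        refine mul_le_mul_of_nonneg_right ?_ hρ4.le
        refine mul_le_mul_of_nonneg_left ?_ hC.le
        exact mul_le_mul_of_nonneg_left hcard hT.le

/-- Neighbourhoods of two arcs are nearly disjoint. -/
theorem near_disjoint {p : X} {c C : ℝ} (hC : 0 < C) (hT : 0 < p.2)
    (hloc : ∀ t0 : unitInterval, p.1 t0 ∈ Pool.Agent.Y995.LG.sq → ∃ A B : unitInterval,
      Set.Icc A B ∈ 𝓝 t0 ∧ ∀ s ∈ Set.Icc A B, ∀ t ∈ Set.Icc A B, s < t → Good p.1 p.2 c C s t)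
    {W J : Set unitInterval} (hW : IsCompact W) (hJ : IsCompact J)
    (hJs : ∀ t ∈ J, p.1 t ∈ Pool.Agent.Y995.LG.sq)
    (hnull : volume {u | u ∈ J ∧ p.1 u ∈ p.1 '' W} = 0) {ε : ℝ} (hε : 0 < ε) :
    ∀ᶠ ρ : ℝ in 𝓝[>] 0, ar p.1 ρ W + ar p.1 ρ J ≤ ar p.1 ρ (W ∪ J) + ε * ρ ^ (1/4 : ℝ) := by
  rcases W.eq_empty_or_nonempty with hWe | hWne
  · subst hWe
    filter_upwards [self_mem_nhdsWithin] with ρ hρ0
    have hρ4 : 0 < ρ ^ (1/4 : ℝ) := Real.rpow_pos_of_pos hρ0 _
    rw [Set.empty_union]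
    have : ar p.1 ρ ∅ = 0 := by simp [ar]
    rw [this]
    nlinarith
  obtain ⟨U0, hU0⟩ : ∃ U0 : Set unitInterval, U0 = {u | u ∈ J ∧ p.1 u ∈ p.1 '' W} := ⟨_, rfl⟩
  rw [← hU0] at hnull
  have himg : IsCompact (p.1 '' W) := hW.image p.1.continuous
  have hU0c : IsCompact U0 := by
    rw [hU0]
    exact hJ.inter_right (himg.isClosed.preimage p.1.continuous)
  have hpos : 0 < ε / (C * p.2) := by positivity
  obtain ⟨O, hUO, hO, hOv⟩ := U0.exists_isOpen_lt_of_lt (μ := (volume : Measure unitInterval))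
    (ENNReal.ofReal (ε / (C * p.2))) (by rw [hnull]; exact ENNReal.ofReal_pos.2 hpos)
  obtain ⟨O', hO'⟩ : ∃ O' : Set unitInterval, O' = O ∩ p.1 ⁻¹' Pool.Agent.Y995.LG.sq := ⟨_, rfl⟩
  have hsq : IsOpen Pool.Agent.Y995.LG.sq := by
    have e : Pool.Agent.Y995.LG.sq = {z : ℂ | 0 < z.re} ∩ {z | z.re < 1} ∩ {z | 0 < z.im} ∩
        {z | z.im < 1} := by
      ext z
      simp only [Pool.Agent.Y995.LG.sq, Set.mem_inter_iff, Set.mem_ofPred_eq]
      tauto
    rw [e]
    exact (((isOpen_lt continuous_const Complex.continuous_re).inter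
      (isOpen_lt Complex.continuous_re continuous_const)).inter
      (isOpen_lt continuous_const Complex.continuous_im)).inter
      (isOpen_lt Complex.continuous_im continuous_const)
  have hO'o : IsOpen O' := by rw [hO']; exact hO.inter (hsq.preimage p.1.continuous)
  have hUO' : U0 ⊆ O' := by
    rw [hO']
    intro u hu
    refine ⟨hUO hu, hJs u ?_⟩
    rw [hU0] at hu
    exact hu.1
  obtain ⟨L, hL, hUL, hLO⟩ := exists_compact_between hU0c hO'o hUO'
  have hup := upper_K (c := c) hC hT hloc hL hO'o hLO (fun t ht => by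
    have := hLO ht
    rw [hO'] at this
    exact this.2) (x := ε / (C * p.2)) (by
    refine le_trans (measure_mono ?_) hOv.le
    rw [hO']
    exact Set.inter_subset_left) hpos.le
  -- the distance to the image of `W`
  have hg : Continuous (fun u => Metric.infDist (p.1 u) (p.1 '' W)) :=
    (Metric.continuous_infDist_pt _).comp p.1.continuous
  have hWi : (p.1 '' W).Nonempty := hWne.image _
  have hd : ∃ d : ℝ, 0 < d ∧ ∀ u ∈ J, Metric.infDist (p.1 u) (p.1 '' W) < d → u ∈ L := by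
    have hJ' : IsCompact (J \ interior L) := hJ.diff isOpen_interior
    rcases (J \ interior L).eq_empty_or_nonempty with he | hne
    · refine ⟨1, one_pos, fun u hu _ => ?_⟩
      by_contra hcon
      have : u ∈ J \ interior L := ⟨hu, fun h => hcon (interior_subset h)⟩
      rw [he] at this
      exact this
    · obtain ⟨u0, hu0, hmin⟩ := hJ'.exists_isMinOn hne hg.continuousOn
      refine ⟨Metric.infDist (p.1 u0) (p.1 '' W), ?_, fun u hu hlt => ?_⟩
      · refine lt_of_le_of_ne Metric.infDist_nonneg fun h => ?_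
        have h1 : p.1 u0 ∈ p.1 '' W :=
          (himg.isClosed.mem_iff_infDist_zero hWi).2 h.symm
        have h2 : u0 ∈ U0 := by
          rw [hU0]
          exact ⟨hu0.1, h1⟩
        exact hu0.2 (hUL h2)
      · by_contra hcon
        have h1 : u ∈ J \ interior L := ⟨hu, fun h => hcon (interior_subset h)⟩
        have h2 := hmin h1
        simp only [Set.mem_ofPred_eq] at h2
        linarith
  obtain ⟨d, hd0, hd⟩ := hd
  filter_upwards [hup, nhdsWithin_le_nhds (gt_mem_nhds (show (0 : ℝ) < d / 2 by positivity))]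
    with ρ hρ hρd
  have hsub : Metric.thickening ρ (p.1 '' W) ∩ Metric.thickening ρ (p.1 '' J) ⊆
      Metric.thickening ρ (p.1 '' L) := by
    rintro x ⟨hx1, hx2⟩
    rw [Metric.mem_thickening_iff] at hx1 hx2 ⊢
    obtain ⟨_, ⟨w, hw, rfl⟩, h1⟩ := hx1
    obtain ⟨_, ⟨u, hu, rfl⟩, h2⟩ := hx2
    refine ⟨p.1 u, ⟨u, hd u hu ?_, rfl⟩, h2⟩
    refine lt_of_le_of_lt (Metric.infDist_le_dist_of_mem ⟨w, hw, rfl⟩) ?_
    calc dist (p.1 u) (p.1 w) ≤ dist (p.1 u) x + dist x (p.1 w) := dist_triangle _ _ _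
      _ < ρ + ρ := by
        rw [dist_comm (p.1 u) x]
        exact add_lt_add h2 h1
      _ < d := by linarith
  have hio := measureReal_union_add_inter (μ := (volume : Measure ℂ))
    (s := Metric.thickening ρ (p.1 '' W)) (t := Metric.thickening ρ (p.1 '' J))
    Metric.isOpen_thickening.measurableSet (fin_thick _ _ _) (fin_thick _ _ _)
  have h3 : volume.real (Metric.thickening ρ (p.1 '' W) ∩ Metric.thickening ρ (p.1 '' J)) ≤
      ε * ρ ^ (1/4 : ℝ) := by
    refine (measureReal_mono hsub (fin_thick _ _ _)).trans (hρ.trans (le_of_eq ?_))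
    have := hT.ne'
    field_simp
  unfold ar
  rw [Set.image_union, Metric.thickening_union, ← hio]
  linarith

end Pool.Agent.R967.Per
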