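import Pool.Agent.R967.Per.Area

/-!
Minkowski content of arcs of the perimeter.
-/

set_option autoImplicit false

namespace Pool.Agent.R967.Per

open H984P H984N MeasureTheory Filter Topology Pool.Agent.Y995.LG
open scoped ENNReal

/-- Hypothesis: every time in the square is inside of an interval with good subarcs. -/
def HLoc (p : X) (c C : ℝ) : Prop :=
  ∀ t0 : unitInterval, p.1 t0 ∈ Pool.Agent.Y995.LG.sq → ∃ A B : unitInterval,
    Set.Icc A B ∈ 𝓝 t0 ∧ ∀ s ∈ Set.Icc A B, ∀ t ∈ Set.Icc A B, s < t → Good p.1 p.2 c C s t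

/-- The lower bound for unions of pieces. -/
theorem lower_S {p : X} {c C : ℝ} (hC : 0 < C) (hT : 0 < p.2) (hloc : HLoc p c C)
    (hnull : volume {u : unitInterval | p.1 u ∈ Pool.Agent.Y995.LG.sq ∧ ∃ w, w ≠ u ∧ p.1 w = p.1 u} = 0)
    {m : ℕ} (S : Finset ℕ) (hS : ∀ j ∈ S, j < m)
    (hgood : ∀ j ∈ S, Good p.1 p.2 c C (pnt m j) (pnt m (j + 1)))
    (hSs : ∀ j ∈ S, ∀ u ∈ pce m j, p.1 u ∈ Pool.Agent.Y995.LG.sq) :
    ∀ ε : ℝ, 0 < ε → ∀ᶠ ρ : ℝ in 𝓝[>] 0,
      (c * (p.2 * ((S.card : ℝ) / m)) - ε) * ρ ^ (1/4 : ℝ) ≤ ar p.1 ρ (⋃ j ∈ S, pce m j) := by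
  classical
  induction S using Finset.induction_on with
  | empty =>
    intro ε hε
    filter_upwards [self_mem_nhdsWithin] with ρ hρ0
    have hρ4 : 0 < ρ ^ (1/4 : ℝ) := Real.rpow_pos_of_pos hρ0 _
    refine le_trans ?_ (ar_nonneg _ _ _)
    rw [Finset.card_empty, Nat.cast_zero, zero_div, mul_zero, mul_zero, zero_sub]
    nlinarith
  | insert j S hj ih =>
    intro ε hε
    have ih' := ih (fun i hi => hS i (Finset.mem_insert_of_mem hi))
      (fun i hi => hgood i (Finset.mem_insert_of_mem hi))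
      (fun i hi => hSs i (Finset.mem_insert_of_mem hi)) (ε / 2) (by positivity)
    have hjm := hS j (Finset.mem_insert_self _ _)
    have hm : 0 < m := by omega
    have hm' : (0 : ℝ) < m := by exact_mod_cast hm
    have hWc : IsCompact (⋃ i ∈ S, pce m i) := S.isCompact_biUnion fun i _ => isCompact_Icc
    have hnd := near_disjoint (c := c) hC hT hloc hWc (J := pce m j) isCompact_Icc
      (hSs j (Finset.mem_insert_self _ _)) (by
        refine measure_mono_null (t := {u : unitInterval | p.1 u ∈ Pool.Agent.Y995.LG.sq ∧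
          ∃ w, w ≠ u ∧ p.1 w = p.1 u} ∪ {pnt m j, pnt m (j + 1)}) ?_ ?_
        · rintro u ⟨hu, w, hw, hwu⟩
          by_cases h : w = u
          · right
            rw [h] at hw
            rw [Set.mem_iUnion₂] at hw
            obtain ⟨i, hi, hui⟩ := hw
            have hij : i ≠ j := fun h => hj (h ▸ hi)
            have him := hS i (Finset.mem_insert_of_mem hi)
            have a1 : (pnt m i : ℝ) ≤ u := hui.1
            have a2 : (u : ℝ) ≤ pnt m (i + 1) := hui.2
            have a3 : (pnt m j : ℝ) ≤ u := hu.1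
            have a4 : (u : ℝ) ≤ pnt m (j + 1) := hu.2
            rw [pnt_val hm him.le] at a1
            rw [pnt_val hm him] at a2
            rw [pnt_val hm hjm.le] at a3
            rw [pnt_val hm hjm] at a4
            rcases lt_or_gt_of_ne hij with h | h
            · left
              have h5 : ((i + 1 : ℕ) : ℝ) ≤ j := by exact_mod_cast h
              have h6 : ((i + 1 : ℕ) : ℝ) / m ≤ (j : ℝ) / m :=
                div_le_div_of_nonneg_right h5 hm'.le
              refine Subtype.ext ?_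
              rw [pnt_val hm hjm.le]
              linarith
            · right
              have h5 : ((j + 1 : ℕ) : ℝ) ≤ i := by exact_mod_cast h
              have h6 : ((j + 1 : ℕ) : ℝ) / m ≤ (i : ℝ) / m :=
                div_le_div_of_nonneg_right h5 hm'.le
              refine Subtype.ext ?_
              rw [pnt_val hm hjm]
              linarith
          · left
            exact ⟨hSs j (Finset.mem_insert_self _ _) u hu, w, h, hwu⟩
        · rw [measure_union_null_iff]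
          refine ⟨hnull, ?_⟩
          exact (Set.toFinite _).measure_zero _) (ε := ε / 2) (by positivity)
    filter_upwards [ih', hnd, hgood j (Finset.mem_insert_self _ _), self_mem_nhdsWithin]
      with ρ h1 h2 h3 hρ0
    have hρ4 : 0 < ρ ^ (1/4 : ℝ) := Real.rpow_pos_of_pos hρ0 _
    rw [pnt_sub hjm] at h3
    have h4 : ar p.1 ρ (pce m j) = ar p.1 ρ (Set.Icc (pnt m j) (pnt m (j + 1))) := rfl
    rw [Finset.set_biUnion_insert, Set.union_comm, Finset.card_insert_of_notMem hj]
    have e : (c * (p.2 * (((S.card + 1 : ℕ) : ℝ) / m)) - ε) * ρ ^ (1/4 : ℝ) =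
        (c * (p.2 * ((S.card : ℝ) / m)) - ε / 2) * ρ ^ (1/4 : ℝ) +
        c * (p.2 * (1 / m)) * ρ ^ (1/4 : ℝ) - ε / 2 * ρ ^ (1/4 : ℝ) := by
      push_cast
      ring
    rw [e]
    rw [h4] at h2
    linarith [h3.1]

/-- Lower bound for all arcs. -/
theorem lower_arc {p : X} {c C : ℝ} (hc : 0 < c) (hC : 0 < C) (hT : 0 < p.2) (hloc : HLoc p c C)
    (hnull : volume {u : unitInterval | p.1 u ∈ Pool.Agent.Y995.LG.sq ∧ ∃ w, w ≠ u ∧ p.1 w = p.1 u} = 0)
    (hv : volume {t : unitInterval | p.1 t ∉ Pool.Agent.Y995.LG.sq} = 0) {s t : unitInterval}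
    (hst : s < t) : ∀ᶠ ρ : ℝ in 𝓝[>] 0,
      c / 2 * (p.2 * ((t : ℝ) - s)) * ρ ^ (1/4 : ℝ) ≤ ar p.1 ρ (Set.Icc s t) := by
  have hst' : (s : ℝ) < t := hst
  have hsq : IsOpen Pool.Agent.Y995.LG.sq := by
    have e : Pool.Agent.Y995.LG.sq = {z : ℂ | 0 < z.re} ∩ {z | z.re < 1} ∩ {z | 0 < z.im} ∩
        {z | z.im < 1} := by
      ext z
      simp only [Pool.Agent.Y995.LG.sq, Set.mem_inter_iff, Set.mem_ofPred_eq]
      tauto
    rw [e]
    exact (((isOpen_lt continuous_const Complex.continuous_re).inter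
      (isOpen_lt Complex.continuous_re continuous_const)).inter
      (isOpen_lt continuous_const Complex.continuous_im)).inter
      (isOpen_lt Complex.continuous_im continuous_const)
  obtain ⟨O, hO⟩ : ∃ O : Set unitInterval, O = Set.Ioo s t ∩ p.1 ⁻¹' Pool.Agent.Y995.LG.sq :=
    ⟨_, rfl⟩
  have hOo : IsOpen O := by rw [hO]; exact isOpen_Ioo.inter (hsq.preimage p.1.continuous)
  have hOv : volume O = ENNReal.ofReal ((t : ℝ) - s) := by
    rw [hO, measure_inter_conull, unitInterval.volume_Ioo]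
    exact hv
  obtain ⟨K, hKO, hK, hKv⟩ := hOo.measurableSet.exists_lt_isCompact
    (μ := (volume : Measure unitInterval)) (r := ENNReal.ofReal (3 / 4 * ((t : ℝ) - s))) (by
      rw [hOv]
      exact (ENNReal.ofReal_lt_ofReal_iff (by linarith)).2 (by linarith))
  obtain ⟨m, S, hm, hS, hcov, hSO, hgood, hSs⟩ := pieces hloc hK hOo hKO (fun u hu => by
    have := hKO hu
    rw [hO] at this
    exact this.2)
  have hm' : (0 : ℝ) < m := by exact_mod_cast hm
  have hcard : 3 / 4 * ((t : ℝ) - s) ≤ (S.card : ℝ) / m := by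
    have h1 := hKv.le.trans (le_card hS hcov)
    rwa [ENNReal.ofReal_le_ofReal_iff (by positivity)] at h1
  have hTst : 0 < c * (p.2 * ((t : ℝ) - s)) := mul_pos hc (mul_pos hT (by linarith))
  filter_upwards [lower_S hC hT hloc hnull S hS hgood hSs (c * (p.2 * ((t : ℝ) - s)) / 4)
    (by positivity), self_mem_nhdsWithin] with ρ hρ hρ0
  have hρ4 : 0 < ρ ^ (1/4 : ℝ) := Real.rpow_pos_of_pos hρ0 _
  have hsub : (⋃ j ∈ S, pce m j) ⊆ Set.Icc s t := by
    refine Set.iUnion₂_subset fun j hj => (hSO j hj).trans ?_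
    rw [hO]
    exact Set.inter_subset_left.trans Set.Ioo_subset_Icc_self
  refine le_trans ?_ (hρ.trans (ar_mono _ _ hsub))
  refine mul_le_mul_of_nonneg_right ?_ hρ4.le
  have h2 : c * (p.2 * (3 / 4 * ((t : ℝ) - s))) ≤ c * (p.2 * ((S.card : ℝ) / m)) :=
    mul_le_mul_of_nonneg_left (mul_le_mul_of_nonneg_left hcard hT.le) hc.le
  nlinarith

/-- Upper bound for arcs in the square. -/
theorem upper_arc {p : X} {c C : ℝ} (hC : 0 < C) (hT : 0 < p.2) (hloc : HLoc p c C)
    {s t : unitInterval} (hst : s < t)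
    (hs : ∀ u ∈ Set.Icc s t, p.1 u ∈ Pool.Agent.Y995.LG.sq) : ∀ᶠ ρ : ℝ in 𝓝[>] 0,
      ar p.1 ρ (Set.Icc s t) ≤ 2 * C * (p.2 * ((t : ℝ) - s)) * ρ ^ (1/4 : ℝ) := by
  have hst' : (s : ℝ) < t := hst
  obtain ⟨O, hKO, hO, hOv⟩ := (Set.Icc s t).exists_isOpen_lt_of_lt
    (μ := (volume : Measure unitInterval)) (ENNReal.ofReal (2 * ((t : ℝ) - s))) (by
      rw [unitInterval.volume_Icc]
      exact (ENNReal.ofReal_lt_ofReal_iff (by linarith)).2 (by linarith))
  filter_upwards [upper_K (c := c) hC hT hloc isCompact_Icc hO hKO hs hOv.le (by linarith)]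
    with ρ hρ
  refine hρ.trans (le_of_eq ?_)
  ring

/-- The dimension of intervals. -/
theorem dimH_Icc {s t : unitInterval} (hst : s < t) : dimH (Set.Icc s t) = 1 := by
  have hst' : (s : ℝ) < t := hst
  have h1 : dimH ((fun x : unitInterval => (x : ℝ)) '' Set.Icc s t) = dimH (Set.Icc s t) :=
    isometry_subtype_coe.dimH_image _
  have h2 : (fun x : unitInterval => (x : ℝ)) '' Set.Icc s t = Set.Icc (s : ℝ) t := by
    ext x
    constructor
    · rintro ⟨y, hy, rfl⟩
      exact ⟨hy.1, hy.2⟩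
    · rintro ⟨h3, h4⟩
      exact ⟨⟨x, s.2.1.trans h3, h4.trans t.2.2⟩, ⟨h3, h4⟩, rfl⟩
  rw [← h1, h2]
  have h4 := Real.dimH_of_nonempty_interior (E := ℝ) (s := Set.Icc (s : ℝ) t) (by
    have h3 : interior (Set.Icc (s : ℝ) t) = Set.Ioo (s : ℝ) t := interior_Icc
    rw [h3]
    exact Set.nonempty_Ioo.2 hst')
  rw [h4, Module.finrank_self, Nat.cast_one]

/-- The double times have measure zero. -/
theorem null_double {p : X}
    (huni : ∀ E : Set unitInterval, (∀ t ∈ E, p.1 t ∈ Pool.Agent.Y995.LG.sq) →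
      dimH (p.1 '' E) = 7 / 4 * dimH E)
    (hdim : dimH {t : unitInterval | p.1 t ∈ dbl p.1 ∩ Pool.Agent.Y995.LG.sq} < 1) :
    volume {u : unitInterval | p.1 u ∈ Pool.Agent.Y995.LG.sq ∧ ∃ w, w ≠ u ∧ p.1 w = p.1 u} = 0 := by
  have hconst : ∀ s t : unitInterval, s < t → ∀ z ∈ Pool.Agent.Y995.LG.sq,
      ¬ ∀ u ∈ Set.Ioo s t, p.1 u = z := by
    intro s t hst z hz hall
    have hst' : (s : ℝ) < t := hst
    obtain ⟨a, ha⟩ : ∃ a : unitInterval, (a : ℝ) = s + ((t : ℝ) - s) / 3 :=
      ⟨⟨s + ((t : ℝ) - s) / 3, by linarith [s.2.1], by linarith [t.2.2]⟩, rfl⟩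
    obtain ⟨b, hb⟩ : ∃ b : unitInterval, (b : ℝ) = s + 2 * ((t : ℝ) - s) / 3 :=
      ⟨⟨s + 2 * ((t : ℝ) - s) / 3, by linarith [s.2.1], by linarith [t.2.2]⟩, rfl⟩
    have hab : a < b := by
      have : (a : ℝ) < b := by rw [ha, hb]; linarith
      exact this
    have hin : ∀ u ∈ Set.Icc a b, u ∈ Set.Ioo s t := by
      intro u hu
      have h1 : (a : ℝ) ≤ u := hu.1
      have h2 : (u : ℝ) ≤ b := hu.2
      constructor
      · have : (s : ℝ) < u := by rw [ha] at h1; linarith
        exact this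
      · have : (u : ℝ) < t := by rw [hb] at h2; linarith
        exact this
    have h1 := huni (Set.Icc a b) (fun u hu => by rw [hall u (hin u hu)]; exact hz)
    rw [dimH_Icc hab, mul_one] at h1
    have h2 : dimH (p.1 '' Set.Icc a b) = 0 := by
      refine dimH_subsingleton ?_
      rintro _ ⟨x, hx, rfl⟩ _ ⟨y, hy, rfl⟩
      rw [hall x (hin x hx), hall y (hin y hy)]
    rw [h2] at h1
    have : (0 : ℝ≥0∞) < 7 / 4 := ENNReal.div_pos (by norm_num) (by norm_num)
    exact this.ne h1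
  have hsub : {u : unitInterval | p.1 u ∈ Pool.Agent.Y995.LG.sq ∧ ∃ w, w ≠ u ∧ p.1 w = p.1 u} ⊆
      {t : unitInterval | p.1 t ∈ dbl p.1 ∩ Pool.Agent.Y995.LG.sq} ∪ {0, 1} := by
    rintro u ⟨hu, w, hwu, hw⟩
    by_cases h01 : u = 0 ∨ u = 1
    · right
      rcases h01 with h | h
      · left; exact h
      · right; exact h
    · left
      rw [not_or] at h01
      refine ⟨?_, hu⟩
      have key : ∀ s t : unitInterval, s < t → (0 < s ∨ t < 1) → p.1 s = p.1 u → p.1 t = p.1 u →
          p.1 u ∈ dbl p.1 := by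
        intro s t hst hor hs ht
        refine ⟨s, t, hst, hs, ht, ?_, ?_⟩
        · by_contra hcon
          push Not at hcon
          exact hconst s t hst (p.1 u) hu (fun x hx => hcon x ⟨hx.1, hx.2⟩)
        · by_contra hcon
          push Not at hcon
          rcases hor with h | h
          · exact hconst 0 s h (p.1 u) hu (fun x hx => hcon x (Or.inl hx.2))
          · exact hconst t 1 h (p.1 u) hu (fun x hx => hcon x (Or.inr hx.1))
      rcases lt_or_gt_of_ne hwu with h | h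
      · refine key w u h (Or.inr (lt_of_le_of_ne u.2.2 h01.2)) hw rfl
      · refine key u w h (Or.inl (lt_of_le_of_ne u.2.1 (Ne.symm h01.1))) rfl hw
  refine measure_mono_null hsub ?_
  rw [measure_union_null_iff]
  refine ⟨?_, (Set.toFinite _).measure_zero _⟩
  have h1 := isometry_subtype_coe.dimH_image (s := {t : unitInterval | p.1 t ∈ dbl p.1 ∩
    Pool.Agent.Y995.LG.sq}) (f := (fun x : unitInterval => (x : ℝ)))
  have h2 : (volume : Measure unitInterval) {t : unitInterval | p.1 t ∈ dbl p.1 ∩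
      Pool.Agent.Y995.LG.sq} = volume ((fun x : unitInterval => (x : ℝ)) '' {t : unitInterval |
      p.1 t ∈ dbl p.1 ∩ Pool.Agent.Y995.LG.sq}) :=
    (MeasurableEmbedding.subtype_coe
      (measurableSet_Icc : MeasurableSet (Set.Icc (0 : ℝ) 1))).comap_apply volume _
  rw [h2, ← hausdorffMeasure_real]
  have h3 := hausdorffMeasure_of_dimH_lt (d := 1) (s := (fun x : unitInterval => (x : ℝ)) ''
    {t : unitInterval | p.1 t ∈ dbl p.1 ∩ Pool.Agent.Y995.LG.sq}) (by rw [h1]; exact_mod_cast hdim)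
  exact_mod_cast h3

end Pool.Agent.R967.Per
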