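import Pool.Agent.R967.Per.TrK
import Pool.Agent.Y995.LG.Uni
import Pool.Agent.Results.MP_fe58d8_pr.FixedSets

/-!
Intersections of the perimeter with fixed sets.
-/

set_option autoImplicit false

namespace Pool.Agent.R967.Per

open H984P H984N MeasureTheory Filter Topology Pool.Agent.Y995.LG
open scoped ENNReal

/-- The translated set. -/
def shS (κ : Loc) (S : Set ℂ) : Set ℂ := {w | κ.z + w ∈ S} ∩ κ.R.D

theorem op_D (κ : Loc) (w : ℂ) : κ.z + w ∈ κ.op ↔ w ∈ κ.R.D := by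
  unfold Loc.op Loc.z Rect.D Loc.R
  simp only [Set.mem_ofPred_eq, Complex.add_re, Complex.add_im]
  constructor
  · rintro ⟨h1, h2, h3, h4⟩
    refine ⟨by linarith, by linarith, by linarith, by linarith⟩
  · rintro ⟨h1, h2, h3, h4⟩
    refine ⟨by linarith, by linarith, by linarith, by linarith⟩

/-- Every time in the open square is in the interior of an arc inside of a rectangle. -/
theorem aff_ofK {p : X} (h0 : p.1 0 = p.1 1) {G : Loc → Set X} (hG : ∀ κ, ∀ q ∈ G κ, 0 < q.2)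
    (hl : LocK G p) (t0 : unitInterval) (ht : p.1 t0 ∈ Pool.Agent.Y995.LG.sq) :
    ∃ κ : Loc, ∃ q ∈ G κ, ∃ (A B : unitInterval) (lam : unitInterval → unitInterval) (ρ : ℝ),
      Set.Icc A B ∈ 𝓝 t0 ∧ Aff p q κ.z A B lam ρ ∧ ∀ t ∈ Set.Icc A B, p.1 t ∈ κ.op := by
  rcases eq_or_lt_of_le t0.2.2 with h1 | h1
  · have h2 : t0 = 1 := Subtype.ext h1
    subst h2
    have e : per p.1 1 = p.1 0 := by
      have e1 := per_one p.1 0
      rw [zero_add] at e1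
      rw [e1]
      have e2 := per_self h0 0
      rwa [Set.Icc.coe_zero] at e2
    obtain ⟨κ, u, v, q, a1, a2, a3, a4, a5, a6, a7, a8⟩ := hl 1 le_rfl (by norm_num)
      (by rw [e, h0]; exact ht)
    obtain ⟨lam, ρ, hρ, hp2, hpq, hlam, hpt⟩ := arc p q κ.z u v h0 (hG κ q a5) a6 (a2.trans a3) a7
    obtain ⟨A, B, hAB, hnb, hin⟩ := icc_of_real (t0 := 1) (a := (u + 1) / 2) (b := (v + 1) / 2)
      (by rw [Set.Icc.coe_one]; linarith) (by rw [Set.Icc.coe_one]; linarith)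
    have hin' : ∀ w ∈ Set.Icc A B, (w : ℝ) ∈ Set.Ioo u v := fun w hw =>
      ⟨by linarith [(hin w hw).1], by linarith [(hin w hw).2]⟩
    refine ⟨κ, q, a5, A, B, fun w => lam w, ρ, hnb, ⟨hρ, hp2, hG κ q a5, hpq, hAB, ?_, ?_⟩, ?_⟩
    · intro s hs t ht
      exact hlam _ _ (Set.Ioo_subset_Icc_self (hin' s hs)) (Set.Ioo_subset_Icc_self (hin' t ht))
    · intro t ht
      rw [← per_self h0 t]
      exact hpt _ (Set.Ioo_subset_Icc_self (hin' t ht))
    · intro t ht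
      rw [← per_self h0 t]
      exact a8.2.2.1 _ (hin' t ht).1 (hin' t ht).2
  · obtain ⟨κ, u, v, q, a1, a2, a3, a4, a5, a6, a7, a8⟩ := hl ((t0 : ℝ) + 1)
      (by linarith [t0.2.1]) (by linarith) (by rw [per_one, per_self h0]; exact ht)
    obtain ⟨lam, ρ, hρ, hp2, hpq, hlam, hpt⟩ := arc p q κ.z u v h0 (hG κ q a5) a6 (a2.trans a3) a7
    obtain ⟨A, B, hAB, hnb, hin⟩ := icc_of_real (t0 := t0) (a := (u - 1 + t0) / 2)
      (b := (v - 1 + t0) / 2) (by linarith) (by linarith)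
    have hin' : ∀ w ∈ Set.Icc A B, (w : ℝ) + 1 ∈ Set.Ioo u v := fun w hw =>
      ⟨by linarith [(hin w hw).1], by linarith [(hin w hw).2]⟩
    refine ⟨κ, q, a5, A, B, fun w => lam ((w : ℝ) + 1), ρ, hnb, ⟨hρ, hp2, hG κ q a5, hpq, hAB,
      ?_, ?_⟩, ?_⟩
    · intro s hs t ht
      rw [hlam _ _ (Set.Ioo_subset_Icc_self (hin' s hs)) (Set.Ioo_subset_Icc_self (hin' t ht))]
      ring
    · intro t ht
      rw [← per_self h0 t, ← per_one]
      exact hpt _ (Set.Ioo_subset_Icc_self (hin' t ht))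
    · intro t ht
      rw [← per_self h0 t, ← per_one]
      exact a8.2.2.1 _ (hin' t ht).1 (hin' t ht).2

/-- A bound for the dimension of the times at which the curve is in `S`. -/
theorem dim_times {p : X} (h0 : p.1 0 = p.1 1) {G : Loc → Set X} {S : Set ℂ} {d : ℝ≥0∞}
    (hS : S ⊆ Pool.Agent.Y995.LG.sq)
    (hG : ∀ κ, ∀ q ∈ G κ, 0 < q.2 ∧ dimH {s : unitInterval | q.1 s ∈ shS κ S} ≤ d)
    (hl : LocK G p) : dimH {t : unitInterval | p.1 t ∈ S} ≤ d := by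
  by_contra hcon
  rw [not_le] at hcon
  obtain ⟨t0, ht0, h1⟩ := exists_mem_nhdsWithin_lt_dimH_of_lt_dimH hcon
  obtain ⟨κ, q, hq, A, B, lam, ρ, hnb, haff, hop⟩ := aff_ofK h0 (fun κ q hq => (hG κ q hq).1) hl t0
    (hS ht0)
  have h2 := h1 (Set.Icc A B ∩ {t : unitInterval | p.1 t ∈ S})
    (Filter.inter_mem (mem_nhdsWithin_of_mem_nhds hnb) self_mem_nhdsWithin)
  have h3 : dimH (lam '' (Set.Icc A B ∩ {t : unitInterval | p.1 t ∈ S})) =
      dimH (Set.Icc A B ∩ {t : unitInterval | p.1 t ∈ S}) := by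
    refine dimH_sim haff.ρ0 ?_
    intro s hs t ht
    rw [Subtype.dist_eq, Subtype.dist_eq, Real.dist_eq, Real.dist_eq, haff.aff t ht.1 s hs.1,
      abs_mul, abs_of_pos haff.ρ0]
  have h4 : lam '' (Set.Icc A B ∩ {t : unitInterval | p.1 t ∈ S}) ⊆
      {s : unitInterval | q.1 s ∈ shS κ S} := by
    rintro _ ⟨t, ⟨ht1, ht2⟩, rfl⟩
    have h5 := haff.val t ht1
    refine ⟨?_, ?_⟩
    · show κ.z + q.1 (lam t) ∈ S
      rw [← h5]
      exact ht2
    · rw [← op_D, ← h5]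
      exact hop t ht1
  have h5 := (dimH_mono h4).trans (hG κ q hq).2
  rw [h3] at h5
  exact absurd h2 (not_lt.2 h5)

theorem no_hit {p : X} (h0 : p.1 0 = p.1 1) {G : Loc → Set X} {S : Set ℂ}
    (hS : S ⊆ Pool.Agent.Y995.LG.sq)
    (hG : ∀ κ, ∀ q ∈ G κ, 0 < q.2 ∧ ∀ s : unitInterval, q.1 s ∉ shS κ S)
    (hl : LocK G p) (t : unitInterval) : p.1 t ∉ S := by
  intro ht
  obtain ⟨κ, q, hq, A, B, lam, ρ, hnb, haff, hop⟩ := aff_ofK h0 (fun κ q hq => (hG κ q hq).1) hl t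
    (hS ht)
  have h5 := haff.val t (mem_of_mem_nhds hnb)
  refine (hG κ q hq).2 (lam t) ⟨?_, ?_⟩
  · show κ.z + q.1 (lam t) ∈ S
    rw [← h5]
    exact ht
  · rw [← op_D, ← h5]
    exact hop t (mem_of_mem_nhds hnb)

theorem dimH_shS (κ : Loc) (S : Set ℂ) : dimH (shS κ S) ≤ dimH S := by
  have h1 : (fun w => κ.z + w) '' shS κ S ⊆ S := by
    rintro _ ⟨w, hw, rfl⟩
    exact hw.1
  have h2 := dimH_mono h1
  rwa [(isometry_add_left κ.z).dimH_image] at h2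

/-- The limits and fixed sets. -/
theorem fix_top {sel : (n : ℕ) → Finset Edge → ℤ × ℤ} {f : (n : ℕ) → Finset Edge → X}
    (hsel : Sel sel f) {k : ℕ → ℕ} (hk : Tendsto k atTop atTop) {μ : ProbabilityMeasure X}
    (hμ : Tendsto (fun i => H342L.lawOf (k i) (f (k i))) atTop (𝓝 μ)) {S : Set ℂ}
    (hS : S ⊆ Pool.Agent.Y995.LG.sq) :
    ∀ᵐ p ∂(μ : Measure X), dimH {t : unitInterval | p.1 t ∈ S} ≤ 4 / 7 * (dimH S - 1 / 4) ∧
      (dimH S < 1 / 4 → ∀ t : unitInterval, p.1 t ∉ S) := by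
  obtain ⟨c, C, hc, hC, hgs⟩ := Pool.Agent.Y995.HG.gauge_sets
  have htr := transferK seg0 Pool.Agent.Y584.LG.split Pool.Agent.Y495.LG.gena
    Pool.Agent.Y259.LG.genb law Pool.Agent.Y431.LG.gl diag cur (fun R => (hgs R).1)
    (G := fun κ => {q : X | 0 < q.2 ∧
      dimH {s : unitInterval | q.1 s ∈ shS κ S} ≤ 4 / 7 * (dimH S - 1 / 4) ∧
      (dimH S < 1 / 4 → ∀ s : unitInterval, q.1 s ∉ shS κ S)})
    (fun κ δ hδ hlim ν hν => by
      filter_upwards [(hgs κ.R).2 δ hδ hlim ν hν,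
        (Pool.Agent.Results.MP_fe58d8_pr.FixedSets.result κ.R).2 δ hδ hlim ν hν (shS κ S)
          Set.inter_subset_right] with q h1 h2
      have h3 := dimH_shS κ S
      refine ⟨h1.1, h2.1.trans ?_, fun h => h2.2 (lt_of_le_of_lt h3 h)⟩
      gcongr) hsel hk hμ
  filter_upwards [htr, cur sel f hsel k hk μ hμ] with p hp hp'
  refine ⟨dim_times hp'.1 hS (fun κ q hq => ⟨hq.1, hq.2.1⟩) hp, fun h t => ?_⟩
  exact no_hit hp'.1 hS (fun κ q hq => ⟨hq.1, hq.2.2 h⟩) hp t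

end Pool.Agent.R967.Per
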