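import Pool.Agent.R967.Per.Loc

/-!
Properties of the perimeter at almost every time.
-/

set_option autoImplicit false

namespace Pool.Agent.R967.Per

open H984P H984N MeasureTheory Filter Topology Pool.Agent.Y995.LG
open scoped ENNReal

theorem vol_coe (s : Set unitInterval) : volume s = volume ((fun x : unitInterval => (x : ℝ)) '' s) := by
  have h := (MeasurableEmbedding.subtype_coe
    (measurableSet_Icc : MeasurableSet (Set.Icc (0 : ℝ) 1))).comap_apply volume s
  exact h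

/-- Preimages of null sets by affine maps. -/
theorem null_preimage {lam : unitInterval → unitInterval} {ρ : ℝ} {A B : unitInterval} (hρ : 0 < ρ)
    (haff : ∀ s ∈ Set.Icc A B, ∀ t ∈ Set.Icc A B, (lam t : ℝ) - lam s = ρ * ((t : ℝ) - s))
    (hAB : A ≤ B) {N : Set unitInterval} (hN : volume N = 0) :
    volume {w | w ∈ Set.Icc A B ∧ lam w ∈ N} = 0 := by
  rw [vol_coe] at hN ⊢
  have hA : A ∈ Set.Icc A B := ⟨le_rfl, hAB⟩
  have hsub : (fun x : unitInterval => (x : ℝ)) '' {w | w ∈ Set.Icc A B ∧ lam w ∈ N} ⊆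
      (fun x : ℝ => ρ * x) ⁻¹' ((fun y : ℝ => ((lam A : ℝ) - ρ * A) + y) ⁻¹'
        ((fun x : unitInterval => (x : ℝ)) '' N)) := by
    rintro _ ⟨w, ⟨hw1, hw2⟩, rfl⟩
    refine ⟨lam w, hw2, ?_⟩
    have := haff A hA w hw1
    simp only
    linarith
  refine measure_mono_null hsub ?_
  rw [Real.volume_preimage_mul_left hρ.ne', measure_preimage_add, hN, mul_zero]

/-- A local property holds at almost every time if it does so for the arcs. -/
theorem ae_of_arcs {p : X} (h0 : p.1 0 = p.1 1) {G : Set X}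
    (hv : volume {t : unitInterval | p.1 t ∉ Pool.Agent.Y995.LG.sq} = 0)
    {P : X → unitInterval → Prop} (hG : ∀ q ∈ G, 0 < q.2 ∧ ∀ᵐ t : unitInterval, P q t)
    (hl : LocG G p)
    (hP : ∀ (q : X) (z : ℂ) (A B : unitInterval) (lam : unitInterval → unitInterval) (ρ : ℝ),
      Aff p q z A B lam ρ → ∀ t : unitInterval, 0 < t → t < 1 → Set.Icc A B ∈ 𝓝 t →
      P q (lam t) → P p t) : ∀ᵐ t : unitInterval, P p t := by
  have h1 : volume {t : unitInterval | p.1 t ∈ Pool.Agent.Y995.LG.sq ∧ 0 < t ∧ t < 1 ∧ ¬ P p t} = 0 := by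
    refine measure_null_of_locally_null _ fun t0 ht0 => ?_
    obtain ⟨q, hq, z, A, B, lam, ρ, hnb, haff⟩ := aff_of h0 (fun q hq => (hG q hq).1) hl t0 ht0.1
    refine ⟨interior (Set.Icc A B) ∩ {t : unitInterval | p.1 t ∈ Pool.Agent.Y995.LG.sq ∧ 0 < t ∧
      t < 1 ∧ ¬ P p t}, Filter.inter_mem
      (mem_nhdsWithin_of_mem_nhds (interior_mem_nhds.2 hnb)) self_mem_nhdsWithin, ?_⟩
    refine measure_mono_null ?_ (null_preimage haff.ρ0 haff.aff haff.le (hG q hq).2)
    rintro t ⟨ht1, -, ht2, ht3, ht4⟩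
    refine ⟨interior_subset ht1, fun hcon => ht4 ?_⟩
    exact hP q z A B lam ρ haff t ht2 ht3 (mem_interior_iff_mem_nhds.1 ht1) hcon
  have h2 : ∀ᵐ t : unitInterval, t ≠ 0 := by
    rw [ae_iff]
    simp
  have h3 : ∀ᵐ t : unitInterval, t ≠ 1 := by
    rw [ae_iff]
    simp
  have h4 : ∀ᵐ t : unitInterval, p.1 t ∈ Pool.Agent.Y995.LG.sq := by
    rw [ae_iff]
    exact hv
  have h5 : ∀ᵐ t : unitInterval, ¬ (p.1 t ∈ Pool.Agent.Y995.LG.sq ∧ 0 < t ∧ t < 1 ∧ ¬ P p t) := by
    rw [ae_iff]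
    simpa using h1
  filter_upwards [h2, h3, h4, h5] with t g2 g3 g4 g5
  by_contra hcon
  exact g5 ⟨g4, lt_of_le_of_ne t.2.1 (Ne.symm g2), lt_of_le_of_ne t.2.2 g3, hcon⟩

/-- The affine map is continuous inside of the arc. -/
theorem lam_tendsto {p q : X} {z : ℂ} {A B : unitInterval} {lam : unitInterval → unitInterval}
    {ρ : ℝ} (haff : Aff p q z A B lam ρ) {t : unitInterval} (ht : Set.Icc A B ∈ 𝓝 t) :
    Tendsto lam (𝓝 t) (𝓝 (lam t)) := by
  rw [tendsto_subtype_rng]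
  have h1 : Tendsto (fun s : unitInterval => (lam t : ℝ) + ρ * ((s : ℝ) - t)) (𝓝 t)
      (𝓝 ((lam t : ℝ) + ρ * ((t : ℝ) - t))) := by
    apply Continuous.tendsto
    fun_prop
  rw [sub_self, mul_zero, add_zero] at h1
  refine h1.congr' ?_
  filter_upwards [ht] with s hs
  have := haff.aff t (mem_of_mem_nhds ht) s hs
  linarith

/-- The affine map is open inside of the arc. -/
theorem lam_open {p q : X} {z : ℂ} {A B : unitInterval} {lam : unitInterval → unitInterval}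
    {ρ : ℝ} (haff : Aff p q z A B lam ρ) {t : unitInterval} (h0 : 0 < t) (h1 : t < 1)
    (ht : Set.Icc A B ∈ 𝓝 t) {P : unitInterval → Prop} (hP : ∀ᶠ s in 𝓝 t, P (lam s)) :
    ∀ᶠ s in 𝓝 (lam t), P s := by
  have hρ := haff.ρ0
  have h0' : (0 : ℝ) < t := h0
  have h1' : (t : ℝ) < 1 := h1
  obtain ⟨inv, hinv⟩ : ∃ inv : unitInterval → unitInterval, ∀ y, inv y =
      Set.projIcc 0 1 zero_le_one ((t : ℝ) + ((y : ℝ) - lam t) / ρ) := ⟨_, fun _ => rfl⟩
  have hcont : Tendsto inv (𝓝 (lam t)) (𝓝 t) := by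
    have h2 : Continuous inv := by
      have : inv = fun y : unitInterval =>
          Set.projIcc 0 1 zero_le_one ((t : ℝ) + ((y : ℝ) - lam t) / ρ) := funext hinv
      rw [this]
      exact continuous_projIcc.comp (by fun_prop)
    have h3 := h2.tendsto (lam t)
    have h4 : inv (lam t) = t := by
      rw [hinv, sub_self, zero_div, add_zero, Set.projIcc_val]
    rwa [h4] at h3
  have hreal : Tendsto (fun y : unitInterval => (t : ℝ) + ((y : ℝ) - lam t) / ρ) (𝓝 (lam t))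
      (𝓝 (t : ℝ)) := by
    have h2 : Continuous (fun y : unitInterval => (t : ℝ) + ((y : ℝ) - lam t) / ρ) := by fun_prop
    have h3 := h2.tendsto (lam t)
    rwa [sub_self, zero_div, add_zero] at h3
  filter_upwards [hcont.eventually hP, hcont.eventually ht,
    hreal.eventually (Ioo_mem_nhds h0' h1')] with y g1 g2 g3
  have h5 : (inv y : ℝ) = (t : ℝ) + ((y : ℝ) - lam t) / ρ := by
    rw [hinv, Set.projIcc_of_mem zero_le_one ⟨g3.1.le, g3.2.le⟩]
  have h6 := haff.aff t (mem_of_mem_nhds ht) (inv y) g2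
  rw [h5] at h6
  have h7 : (lam (inv y) : ℝ) = y := by
    have : ρ * ((t : ℝ) + ((y : ℝ) - lam t) / ρ - t) = (y : ℝ) - lam t := by
      field_simp
      ring
    linarith
  have h8 : lam (inv y) = y := Subtype.ext h7
  rw [h8] at g1
  exact g1

/-- Upper and lower bounds of the local modulus of continuity. -/
theorem lil_arc (phi : ℝ → ℝ) (c C : ℝ) (p q : X) (z : ℂ) (A B : unitInterval)
    (lam : unitInterval → unitInterval) (ρ : ℝ) (haff : Aff p q z A B lam ρ) (t : unitInterval)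
    (h0 : 0 < t) (h1 : t < 1) (ht : Set.Icc A B ∈ 𝓝 t)
    (hq : (∀ᶠ s : unitInterval in 𝓝 (lam t),
        dist (q.1 s) (q.1 (lam t)) ≤ C * phi (q.2 * |(s : ℝ) - lam t|)) ∧
      (∃ᶠ s : unitInterval in 𝓝 (lam t),
        c * phi (q.2 * |(s : ℝ) - lam t|) < dist (q.1 s) (q.1 (lam t)))) :
    (∀ᶠ s : unitInterval in 𝓝 t, dist (p.1 s) (p.1 t) ≤ C * phi (p.2 * |(s : ℝ) - t|)) ∧
      (∃ᶠ s : unitInterval in 𝓝 t, c * phi (p.2 * |(s : ℝ) - t|) < dist (p.1 s) (p.1 t)) := by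
  have htm := mem_of_mem_nhds ht
  have key : ∀ s ∈ Set.Icc A B, dist (p.1 s) (p.1 t) = dist (q.1 (lam s)) (q.1 (lam t)) ∧
      p.2 * |(s : ℝ) - t| = q.2 * |(lam s : ℝ) - lam t| := by
    intro s hs
    refine ⟨haff.dist hs htm, ?_⟩
    rw [haff.aff t htm s hs, abs_mul, abs_of_pos haff.ρ0, haff.pq, mul_assoc]
  constructor
  · filter_upwards [(lam_tendsto haff ht).eventually hq.1, ht] with s hs hs'
    rw [(key s hs').1, (key s hs').2]
    exact hs
  · intro hcon
    refine hq.2 (lam_open haff h0 h1 ht (P := fun y => ¬ (c * phi (q.2 * |(y : ℝ) - lam t|) <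
      dist (q.1 y) (q.1 (lam t)))) ?_)
    filter_upwards [hcon, ht] with s hs hs'
    rw [(key s hs').1, (key s hs').2] at hs
    exact hs

end Pool.Agent.R967.Per
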