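import Pool.Agent.Y995.LG.Fin2

/-!
Arcs of the perimeter in terms of the times in the unit interval.
-/

set_option autoImplicit false

namespace Pool.Agent.R967.Per

open H984P H984N MeasureTheory Filter Topology Pool.Agent.Y995.LG
open scoped ENNReal

/-- On `[A, B]` the curve `p` is an affine copy of an arc of `q`, translated by `z`, with the same
natural time. -/
structure Aff (p q : X) (z : ℂ) (A B : unitInterval) (lam : unitInterval → unitInterval)
    (ρ : ℝ) : Prop where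
  ρ0 : 0 < ρ
  p2 : 0 < p.2
  q2 : 0 < q.2
  pq : p.2 = q.2 * ρ
  le : A ≤ B
  aff : ∀ s ∈ Set.Icc A B, ∀ t ∈ Set.Icc A B, (lam t : ℝ) - lam s = ρ * ((t : ℝ) - s)
  val : ∀ t ∈ Set.Icc A B, p.1 t = z + q.1 (lam t)

theorem Aff.dist {p q : X} {z : ℂ} {A B : unitInterval} {lam : unitInterval → unitInterval}
    {ρ : ℝ} (h : Aff p q z A B lam ρ) {s t : unitInterval} (hs : s ∈ Set.Icc A B)
    (ht : t ∈ Set.Icc A B) : dist (p.1 s) (p.1 t) = dist (q.1 (lam s)) (q.1 (lam t)) := by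
  rw [h.val s hs, h.val t ht, dist_add_left]

theorem Aff.mono {p q : X} {z : ℂ} {A B : unitInterval} {lam : unitInterval → unitInterval}
    {ρ : ℝ} (h : Aff p q z A B lam ρ) {s t : unitInterval} (hs : s ∈ Set.Icc A B)
    (ht : t ∈ Set.Icc A B) (hst : s ≤ t) : lam s ≤ lam t := by
  have h1 := h.aff s hs t ht
  have h2 : (s : ℝ) ≤ t := hst
  have h3 : 0 ≤ ρ * ((t : ℝ) - s) := mul_nonneg h.ρ0.le (by linarith)
  have h4 : (lam s : ℝ) ≤ lam t := by linarith
  exact h4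

/-- Closed real intervals around a time. -/
theorem icc_of_real {t0 : unitInterval} {a b : ℝ} (ha : a < t0) (hb : (t0 : ℝ) < b) :
    ∃ A B : unitInterval, A ≤ B ∧ Set.Icc A B ∈ 𝓝 t0 ∧
      ∀ w ∈ Set.Icc A B, a ≤ (w : ℝ) ∧ (w : ℝ) ≤ b := by
  refine ⟨Set.projIcc 0 1 zero_le_one a, Set.projIcc 0 1 zero_le_one b, ?_, ?_, ?_⟩
  · exact Set.monotone_projIcc _ (by linarith)
  · have h1 : {w : unitInterval | a < w ∧ (w : ℝ) < b} ∈ 𝓝 t0 := by
      refine IsOpen.mem_nhds ?_ ⟨ha, hb⟩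
      exact (isOpen_lt continuous_const continuous_subtype_val).inter
        (isOpen_lt continuous_subtype_val continuous_const)
    filter_upwards [h1] with w hw
    constructor
    · rw [← Subtype.coe_le_coe, Set.coe_projIcc]
      exact max_le w.2.1 (le_trans (min_le_right _ _) hw.1.le)
    · rw [← Subtype.coe_le_coe, Set.coe_projIcc]
      exact le_trans (le_min w.2.2 hw.2.le) (le_max_right _ _)
  · rintro w ⟨h1, h2⟩
    rw [← Subtype.coe_le_coe, Set.coe_projIcc] at h1 h2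
    constructor
    · have h3 : a ≤ 1 := by linarith [t0.2.2]
      rw [min_eq_right h3] at h1
      exact (le_max_right _ _).trans h1
    · have h3 : 0 ≤ b := by linarith [t0.2.1]
      rw [max_eq_right (le_min zero_le_one h3)] at h2
      exact h2.trans (min_le_right _ _)

/-- Every time in the open square is in the interior of an arc. -/
theorem aff_of {p : X} (h0 : p.1 0 = p.1 1) {G : Set X} (hG : ∀ q ∈ G, 0 < q.2) (hl : LocG G p)
    (t0 : unitInterval) (ht : p.1 t0 ∈ sq) :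
    ∃ q ∈ G, ∃ (z : ℂ) (A B : unitInterval) (lam : unitInterval → unitInterval) (ρ : ℝ),
      Set.Icc A B ∈ 𝓝 t0 ∧ Aff p q z A B lam ρ := by
  rcases eq_or_lt_of_le t0.2.2 with h1 | h1
  · have h2 : t0 = 1 := Subtype.ext h1
    subst h2
    have e : per p.1 1 = p.1 0 := by
      have e1 := per_one p.1 0
      rw [zero_add] at e1
      rw [e1]
      have e2 := per_self h0 0
      rwa [Set.Icc.coe_zero] at e2
    obtain ⟨u, v, z, q, a1, a2, a3, a4, a5, a6, a7⟩ := hl 1 le_rfl (by norm_num)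
      (by rw [e, h0]; exact ht)
    obtain ⟨lam, ρ, hρ, hp2, hpq, hlam, hpt⟩ := arc p q z u v h0 (hG q a5) a6 (a2.trans a3) a7
    obtain ⟨A, B, hAB, hnb, hin⟩ := icc_of_real (t0 := 1) (a := u) (b := v)
      (by rw [Set.Icc.coe_one]; exact a2) (by rw [Set.Icc.coe_one]; exact a3)
    refine ⟨q, a5, z, A, B, fun w => lam w, ρ, hnb, hρ, hp2, hG q a5, hpq, hAB, ?_, ?_⟩
    · intro s hs t ht
      exact hlam _ _ (hin s hs) (hin t ht)
    · intro t ht
      rw [← per_self h0 t]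
      exact hpt _ (hin t ht)
  · obtain ⟨u, v, z, q, a1, a2, a3, a4, a5, a6, a7⟩ := hl ((t0 : ℝ) + 1) (by linarith [t0.2.1])
      (by linarith) (by rw [per_one, per_self h0]; exact ht)
    obtain ⟨lam, ρ, hρ, hp2, hpq, hlam, hpt⟩ := arc p q z u v h0 (hG q a5) a6 (a2.trans a3) a7
    obtain ⟨A, B, hAB, hnb, hin⟩ := icc_of_real (t0 := t0) (a := u - 1) (b := v - 1)
      (by linarith) (by linarith)
    have hin' : ∀ w ∈ Set.Icc A B, (w : ℝ) + 1 ∈ Set.Icc u v := fun w hw =>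
      ⟨by linarith [(hin w hw).1], by linarith [(hin w hw).2]⟩
    refine ⟨q, a5, z, A, B, fun w => lam ((w : ℝ) + 1), ρ, hnb, hρ, hp2, hG q a5, hpq, hAB, ?_, ?_⟩
    · intro s hs t ht
      rw [hlam _ _ (hin' s hs) (hin' t ht)]
      ring
    · intro t ht
      rw [← per_self h0 t, ← per_one]
      exact hpt _ (hin' t ht)

/-- Finitely many arcs cover a compact set of times in the open square. -/
theorem cover {p : X} (h0 : p.1 0 = p.1 1) {G : Set X} (hG : ∀ q ∈ G, 0 < q.2) (hl : LocG G p)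
    {K : Set unitInterval} (hK : IsCompact K) (hKs : ∀ t ∈ K, p.1 t ∈ sq) :
    ∃ (ι : Type) (_ : Fintype ι) (q : ι → X) (z : ι → ℂ) (A B : ι → unitInterval)
      (lam : ι → unitInterval → unitInterval) (ρ : ι → ℝ) (δ : ℝ), 0 < δ ∧
      (∀ i, q i ∈ G ∧ Aff p (q i) (z i) (A i) (B i) (lam i) (ρ i)) ∧
      ∀ t ∈ K, ∃ i, Metric.ball t δ ⊆ Set.Icc (A i) (B i) := by
  classical
  have hch : ∀ t : K, ∃ x : X × ℂ × unitInterval × unitInterval × (unitInterval → unitInterval) × ℝ,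
      x.1 ∈ G ∧ Set.Icc x.2.2.1 x.2.2.2.1 ∈ 𝓝 (t : unitInterval) ∧
      Aff p x.1 x.2.1 x.2.2.1 x.2.2.2.1 x.2.2.2.2.1 x.2.2.2.2.2 := by
    rintro ⟨t, ht⟩
    obtain ⟨q, hq, z, A, B, lam, ρ, h1, h2⟩ := aff_of h0 hG hl t (hKs t ht)
    exact ⟨(q, z, A, B, lam, ρ), hq, h1, h2⟩
  choose x hx using hch
  obtain ⟨T, hT⟩ := hK.elim_nhds_subcover' (fun t ht => interior (Set.Icc (x ⟨t, ht⟩).2.2.1
    (x ⟨t, ht⟩).2.2.2.1)) (fun t ht => interior_mem_nhds.2 (hx ⟨t, ht⟩).2.1)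
  obtain ⟨δ, hδ, hleb⟩ := lebesgue_number_lemma_of_metric hK
    (c := fun i : {t : K // t ∈ T} => interior (Set.Icc (x i.1).2.2.1 (x i.1).2.2.2.1))
    (fun _ => isOpen_interior) (by
      intro t ht
      have h1 := hT ht
      rw [Set.mem_iUnion₂] at h1
      obtain ⟨i, hi, h2⟩ := h1
      exact Set.mem_iUnion.2 ⟨⟨i, hi⟩, h2⟩)
  refine ⟨{t : K // t ∈ T}, inferInstance, fun i => (x i.1).1, fun i => (x i.1).2.1,
    fun i => (x i.1).2.2.1, fun i => (x i.1).2.2.2.1, fun i => (x i.1).2.2.2.2.1,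
    fun i => (x i.1).2.2.2.2.2, δ, hδ, fun i => ⟨(hx i.1).1, (hx i.1).2.2⟩, fun t ht => ?_⟩
  obtain ⟨i, hi⟩ := hleb t ht
  exact ⟨i, hi.trans interior_subset⟩

end Pool.Agent.R967.Per
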