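import Pool.Agent.R967.Per.Loc
import Pool.Agent.Y995.LG.Top

/-!
Transfer of properties of the exploration paths to the limits of the perimeter.
-/

set_option autoImplicit false

namespace Pool.Agent.R967.Per

open H984P H984N MeasureTheory Filter Topology Pool.Agent.Y995.LG Pool.Agent.Y995.HG
open scoped ENNReal

/-- The limits are locally arcs of elements of `G`. -/
theorem top_gen {G : Set X} (hG0 : ∀ q ∈ G, 0 < q.2)
    (hGG : ∀ R : Rect, ∀ δ : ℕ → ℝ, (∀ i, 0 < δ i) → Tendsto δ atTop (𝓝 0) →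
      ∀ μ : ProbabilityMeasure X, Tendsto (fun i => R.law (δ i)) atTop (𝓝 μ) →
      ∀ᵐ q ∂(μ : Measure X), q ∈ G)
    {sel : (n : ℕ) → Finset Edge → ℤ × ℤ} {f : (n : ℕ) → Finset Edge → X} (hsel : Sel sel f)
    {k : ℕ → ℕ} (hk : Tendsto k atTop atTop) {μ : ProbabilityMeasure X}
    (hμ : Tendsto (fun i => H342L.lawOf (k i) (f (k i))) atTop (𝓝 μ)) :
    ∀ᵐ p ∂(μ : Measure X), p.1 0 = p.1 1 ∧ 0 < p.2 ∧
      volume {t : unitInterval | p.1 t ∉ Pool.Agent.Y995.LG.sq} = 0 ∧ LocG G p := by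
  obtain ⟨c, C, hc, hC, hgs⟩ := gauge_sets
  have htr := transfer seg0 Pool.Agent.Y584.LG.split Pool.Agent.Y495.LG.gena Pool.Agent.Y259.LG.genb
    law Pool.Agent.Y431.LG.gl diag cur (fun R => (hgs R).1) hGG hsel hk hμ
  filter_upwards [htr, cur sel f hsel k hk μ hμ, bdry0 sel f hsel k hk μ hμ] with p p1 p2 p4
  obtain ⟨h0, hdim, -⟩ := p2
  have hex : ∃ t, p.1 t ∈ Pool.Agent.Y995.LG.sq := by
    by_contra hcon
    push Not at hcon
    have h4 : Set.range p.1 ⊆ closure Pool.Agent.Y995.LG.sq \ Pool.Agent.Y995.LG.sq := by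
      rintro _ ⟨t, rfl⟩
      exact ⟨p4.1 t, hcon t⟩
    have h5 := (dimH_mono h4).trans bdim
    rw [hdim, e74, ENNReal.ofReal_le_one] at h5
    norm_num at h5
  obtain ⟨t, ht⟩ := hex
  obtain ⟨q, hq, z, A, B, lam, ρ, -, haff⟩ := aff_of h0 hG0 p1 t ht
  refine ⟨h0, haff.p2, ?_, p1⟩
  rcases mul_eq_zero.mp p4.2 with h | h
  · exact absurd h haff.p2.ne'
  · rcases (ENNReal.toReal_eq_zero_iff _).mp h with h | h
    · exact h
    · exact absurd h (measure_ne_top _ _)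

end Pool.Agent.R967.Per
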