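import Pool.Agent.R967.Per.Loc
import Pool.Agent.Y995.LG.Top

/-!
Transfer of properties which depend on the rectangle.
-/

set_option autoImplicit false

namespace Pool.Agent.R967.Per

open H984P H984N MeasureTheory Filter Topology Pool.Agent.Y995.LG Pool.Agent.Y995.HG
open scoped ENNReal

/-- Every time at which the closed curve is in the open square is in the interior of an arc inside
of a rectangle `κ`, which is a translate of an arc of an element of `G κ`, with the same natural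
time. -/
def LocK (G : Loc → Set X) (p : X) : Prop := ∀ t0 : ℝ, 1 ≤ t0 → t0 < 2 →
  per p.1 t0 ∈ Pool.Agent.Y995.LG.sq →
  ∃ (κ : Loc) (u v : ℝ) (q : X), 0 < u ∧ u < t0 ∧ t0 < v ∧ v < u + 1 ∧ q ∈ G κ ∧
    SegRel p q κ.z u v ∧ (∃ s, u < s ∧ s < v ∧ per p.1 s ≠ per p.1 u) ∧ Crs κ (per p.1) u v

/-- Arcs of one curve. -/
theorem locK_one (hSEG : S_SEG) (hSPL : S_SPLIT) {G : Loc → Set X} {Dx Dy : Set ℝ}
    (hDx : ∀ a b : ℝ, 0 ≤ a → a < b → b ≤ 1 → ∃ x ∈ Dx, a < x ∧ x < b)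
    (hDy : ∀ a b : ℝ, 0 ≤ a → a < b → b ≤ 1 → ∃ x ∈ Dy, a < x ∧ x < b)
    {K : ℕ → Loc} (hK : ∀ κ : Loc, (κ.l ∈ Dx ∧ κ.r ∈ Dx ∧ κ.α ∈ Dx ∧ κ.β ∈ Dx ∧ κ.b ∈ Dy ∧
      κ.h ∈ Dy) → ∃ j, K j = κ)
    {p : X} (h0 : p.1 0 = p.1 1) (hdim : dimH (Set.range p.1) = 7 / 4)
    (hgx : ∀ x ∈ Dx, Gen Complex.re x (per p.1) ∧ NoDbl Complex.re x (per p.1))
    (hgy : ∀ x ∈ Dy, Gen Complex.im x (per p.1) ∧ NoDbl Complex.im x (per p.1))
    {n : ℕ → ℕ} {F : ℕ → Finset Edge} {w : ℕ → ℤ × ℤ} {x : ℕ → X} {y : ℕ → X}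
    (hn : Tendsto n atTop atTop) (hnat : ∀ m, IsNat (n m) (F m) (w m) (x m))
    (hx : Tendsto x atTop (𝓝 p))
    (hy : ∀ j, y j ∈ G (K j) ∧ Tendsto (fun m => (K j).Y (n m) (F m)) atTop (𝓝 (y j))) :
    LocK G p := by
  have hper := per_cont h0
  intro t0 h1 h2 h3
  have hne : ∃ t, per p.1 t ≠ per p.1 t0 := by
    by_contra hcon
    push Not at hcon
    have h4 : Set.range p.1 ⊆ {per p.1 t0} := by
      rintro _ ⟨t, rfl⟩
      rw [← per_self h0 t]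
      exact hcon t
    have h5 : dimH (Set.range p.1) ≤ 0 := by
      have := dimH_mono h4
      rwa [dimH_singleton] at this
    rw [hdim] at h5
    norm_num at h5
  obtain ⟨κ, hκ, u, v, hu, hv, hcrs⟩ := hSPL Dx Dy hDx hDy (per p.1) hper (per_one p.1) hgx hgy t0
    h3 hne
  obtain ⟨j, rfl⟩ := hK κ hκ
  have hu0 : 0 < u := by linarith [hcrs.2.1]
  have hbox : GenBox (K j) (per p.1) :=
    ⟨(hgx _ hκ.1).1, (hgx _ hκ.2.1).1, (hgy _ hκ.2.2.2.2.1).1, (hgy _ hκ.2.2.2.2.2).1⟩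
  have hseg := hSEG (K j) p (y j) u v h0 hu0 hcrs hbox n F w x hn hnat hx (hy j).2
  exact ⟨K j, u, v, y j, hu0, hu, hv, hcrs.2.1, (hy j).1, hseg, hcrs.ne, hcrs⟩

/-- Transfer of local properties of the exploration paths. -/
theorem transferK (hSEG : S_SEG) (hSPL : S_SPLIT) (hGA : S_GENA) (hGB : S_GENB) (hLAW : S_LAW)
    (hGL : S_GL) (hDIA : S_DIAG) (hCUR : S_CUR)
    (hEx : ∀ R : Rect, ∀ δ : ℕ → ℝ, (∀ i, 0 < δ i) → Tendsto δ atTop (𝓝 0) →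
      ∃ φ : ℕ → ℕ, StrictMono φ ∧ ∃ μ : ProbabilityMeasure X,
        Tendsto (fun i => R.law (δ (φ i))) atTop (𝓝 μ))
    {G : Loc → Set X} (hGG : ∀ κ : Loc, ∀ δ : ℕ → ℝ, (∀ i, 0 < δ i) → Tendsto δ atTop (𝓝 0) →
      ∀ μ : ProbabilityMeasure X, Tendsto (fun i => κ.R.law (δ i)) atTop (𝓝 μ) →
      ∀ᵐ q ∂(μ : Measure X), q ∈ G κ)
    {sel : (n : ℕ) → Finset Edge → ℤ × ℤ} {f : (n : ℕ) → Finset Edge → X} (hsel : Sel sel f)
    {k : ℕ → ℕ} (hk : Tendsto k atTop atTop) {μ : ProbabilityMeasure X}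
    (hμ : Tendsto (fun i => H342L.lawOf (k i) (f (k i))) atTop (𝓝 μ)) :
    ∀ᵐ p ∂(μ : Measure X), LocK G p := by
  have hcur := hCUR sel f hsel k hk μ hμ
  have hcl : ∀ᵐ p ∂(μ : Measure X), p.1 0 = p.1 1 := by
    filter_upwards [hcur] with p hp
    exact hp.1
  have hdb : ∀ᵐ p ∂(μ : Measure X), dimH (dbl p.1) < 1 := by
    filter_upwards [hcur] with p hp
    rw [hp.2.2, e34, ← ENNReal.ofReal_one]
    exact (ENNReal.ofReal_lt_ofReal_iff (by norm_num)).mpr (by norm_num)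
  have hlre : LipschitzWith 1 Complex.re :=
    LipschitzWith.of_dist_le_mul (fun x y => by
      rw [NNReal.coe_one, one_mul, Real.dist_eq, Complex.dist_eq, ← Complex.sub_re]
      exact Complex.abs_re_le_norm _)
  have hlim : LipschitzWith 1 Complex.im :=
    LipschitzWith.of_dist_le_mul (fun x y => by
      rw [NNReal.coe_one, one_mul, Real.dist_eq, Complex.dist_eq, ← Complex.sub_im]
      exact Complex.abs_im_le_norm _)
  -- generic lines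
  have hX : ∀ᵐ x : ℝ, ∀ᵐ p ∂(μ : Measure X), Gen Complex.re x (per p.1) ∧
      NoDbl Complex.re x (per p.1) := by
    filter_upwards [hGA μ hcl _ Complex.continuous_re, hGB μ hcl hdb _ hlre] with x h1 h2
    filter_upwards [h1, h2] with p h3 h4
    exact ⟨h3, h4⟩
  have hY : ∀ᵐ x : ℝ, ∀ᵐ p ∂(μ : Measure X), Gen Complex.im x (per p.1) ∧
      NoDbl Complex.im x (per p.1) := by
    filter_upwards [hGA μ hcl _ Complex.continuous_im, hGB μ hcl hdb _ hlim] with x h1 h2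
    filter_upwards [h1, h2] with p h3 h4
    exact ⟨h3, h4⟩
  obtain ⟨Dx, hDc, hDp, hDd⟩ := lines hX
  obtain ⟨Dy, hEc, hEp, hEd⟩ := lines hY
  obtain ⟨K, hK⟩ := enum hDc hEc
  have hgx : ∀ᵐ p ∂(μ : Measure X), ∀ x ∈ Dx, Gen Complex.re x (per p.1) ∧
      NoDbl Complex.re x (per p.1) := (ae_ball_iff hDc).mpr hDp
  have hgy : ∀ᵐ p ∂(μ : Measure X), ∀ x ∈ Dy, Gen Complex.im x (per p.1) ∧
      NoDbl Complex.im x (per p.1) := (ae_ball_iff hEc).mpr hEp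
  -- positive scales
  obtain ⟨i0, hi0⟩ := (tendsto_atTop_atTop.mp hk) 1
  obtain ⟨k1, hk1⟩ : ∃ k1 : ℕ → ℕ, ∀ i, k1 i = k (i + i0) := ⟨_, fun _ => rfl⟩
  have hk1p : ∀ i, 0 < k1 i := fun i => by
    rw [hk1]
    exact hi0 _ (Nat.le_add_left _ _)
  have hk1t : Tendsto k1 atTop atTop := by
    have : k1 = fun i => k (i + i0) := funext hk1
    rw [this]
    exact hk.comp (tendsto_add_atTop_nat i0)
  have hμ1 : Tendsto (fun i => H342L.lawOf (k1 i) (f (k1 i))) atTop (𝓝 μ) := by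
    have h1 := hμ.comp (tendsto_add_atTop_nat i0)
    have : (fun i => H342L.lawOf (k1 i) (f (k1 i))) =
        (fun i => H342L.lawOf (k i) (f (k i))) ∘ (fun i => i + i0) := by
      funext i
      simp only [Function.comp_apply, hk1]
    rw [this]
    exact h1
  have hδt : ∀ φ : ℕ → ℕ, StrictMono φ → Tendsto (fun i => 1 / ((k1 (φ i) : ℕ) : ℝ)) atTop (𝓝 0) := by
    intro φ hφ
    have h1 : Tendsto (fun i => ((k1 (φ i) : ℕ) : ℝ)) atTop atTop :=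
      tendsto_natCast_atTop_atTop.comp (hk1t.comp hφ.tendsto_atTop)
    have h2 := h1.inv_tendsto_atTop
    refine h2.congr (fun i => ?_)
    simp
  have hδp : ∀ φ : ℕ → ℕ, ∀ i, (0:ℝ) < 1 / ((k1 (φ i) : ℕ) : ℝ) := by
    intro φ i
    have : (0:ℝ) < ((k1 (φ i) : ℕ) : ℝ) := by exact_mod_cast hk1p _
    positivity
  -- diagonal subsequence
  obtain ⟨φ, hφ, hlaw⟩ := hDIA (ProbabilityMeasure X)
    (fun j i => (K j).R.law (1 / ((k1 i : ℕ) : ℝ)))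
    (fun j φ hφ => by
      obtain ⟨ψ, hψ, ν, hν⟩ := hEx (K j).R (fun i => 1 / ((k1 (φ i) : ℕ) : ℝ)) (hδp φ)
        (hδt φ hφ)
      exact ⟨ψ, hψ, ν, hν⟩)
  choose ν hν using hlaw
  have hG : ∀ j, ∀ᵐ q ∂(ν j : Measure X), q ∈ G (K j) := by
    intro j
    exact hGG (K j) (fun i => 1 / ((k1 (φ i) : ℕ) : ℝ)) (hδp φ) (hδt φ hφ) (ν j) (hν j)
  have hνY : ∀ j, Tendsto (fun i => H342L.lawOf (k1 (φ i)) ((K j).Y (k1 (φ i)))) atTop
      (𝓝 (ν j)) := by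
    intro j
    obtain ⟨n0, hn0⟩ := hLAW (K j)
    refine (hν j).congr' ?_
    have h1 : Tendsto (fun i => k1 (φ i)) atTop atTop := hk1t.comp hφ.tendsto_atTop
    filter_upwards [h1.eventually_ge_atTop n0] with i hi
    exact ((hn0 _ hi).2).symm
  have hgl := hGL (fun i => k1 (φ i)) f μ (hμ1.comp hφ.tendsto_atTop) (fun j n F => (K j).Y n F) ν
    hνY (fun j => G (K j)) hG
  filter_upwards [hcur, hgx, hgy, hgl] with p q1 q3 q4 q5
  obtain ⟨ψ, F, y, hψ, hF, hx, hy⟩ := q5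
  refine locK_one hSEG hSPL hDd hEd hK q1.1 q1.2.1 q3 q4
    (n := fun m => k1 (φ (ψ m))) (F := F) (w := fun m => sel (k1 (φ (ψ m))) (F m))
    (x := fun m => f (k1 (φ (ψ m))) (F m)) (y := y) ?_ ?_ hx (fun j => ⟨(hy j).1, (hy j).2⟩)
  · exact hk1t.comp (hφ.tendsto_atTop.comp hψ.tendsto_atTop)
  · intro m
    exact hsel.nat _ _ (hk1p _) (hF m)

end Pool.Agent.R967.Per
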