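import Pool.Agent.R967.Per.Loc
import Pool.Agent.R965.EV.Top

/-!
The variation of the perimeter from the variation of its arcs.
-/

set_option autoImplicit false

namespace Pool.Agent.R967.Per

open H984P H984N MeasureTheory Filter Topology Pool.Agent.Y995.LG
open Pool.Agent.Y41.EV
open scoped ENNReal

/-- Upper bound for the `ψ`-sums over non-overlapping intervals which start in `K`. -/
def UPK (f : C(unitInterval, ℂ)) (T C : ℝ) (K : Set unitInterval) : Prop :=
  ∀ ε : ℝ, 0 < ε → ∃ η : ℝ, 0 < η ∧ ∀ (n : ℕ) (a b : ℕ → unitInterval),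
    (∀ i < n, a i ∈ K ∧ a i ≤ b i ∧ (b i : ℝ) - a i ≤ η) → (∀ i j, i < j → j < n → b i ≤ a j) →
    ∑ i ∈ Finset.range n, psi (dist (f (a i)) (f (b i))) ≤
      C * T * ∑ i ∈ Finset.range n, ((b i : ℝ) - a i) + ε

theorem ball_mem {a b : unitInterval} {δ : ℝ} (hab : a ≤ b) (h : (b : ℝ) - a < δ) (hδ : 0 < δ) :
    a ∈ Metric.ball a δ ∧ b ∈ Metric.ball a δ := by
  refine ⟨Metric.mem_ball_self hδ, ?_⟩
  rw [Metric.mem_ball, Subtype.dist_eq, Real.dist_eq, abs_of_nonneg]
  · exact h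
  · have : (a : ℝ) ≤ b := hab
    linarith

theorem upk {p : X} (h0 : p.1 0 = p.1 1) {G : Set X} {C : ℝ}
    (hG : ∀ q ∈ G, 0 < q.2 ∧ UPF q.1 q.2 C) (hl : LocG G p) {K : Set unitInterval}
    (hK : IsCompact K) (hKs : ∀ t ∈ K, p.1 t ∈ sq) : UPK p.1 p.2 C K := by
  classical
  obtain ⟨ι, hι, q, z, A, B, lam, ρ, δ, hδ, hq, hcov⟩ := cover h0 (fun q hq => (hG q hq).1) hl hK hKs
  intro ε hε
  obtain ⟨ε', hε'⟩ : ∃ ε' : ℝ, ε' = ε / (Fintype.card ι + 1) := ⟨_, rfl⟩
  have hε0 : 0 < ε' := by rw [hε']; positivity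
  have hch : ∀ i, ∃ η : ℝ, 0 < η ∧ ∀ (n : ℕ) (a b : ℕ → unitInterval),
    (∀ j < n, a j ≤ b j ∧ (b j : ℝ) - a j ≤ η) → (∀ j l, j < l → l < n → b j ≤ a l) →
    ∑ j ∈ Finset.range n, psi (dist ((q i).1 (a j)) ((q i).1 (b j))) ≤
      C * (q i).2 * ∑ j ∈ Finset.range n, ((b j : ℝ) - a j) + ε' :=
    fun i => (hG _ (hq i).1).2 ε' hε0
  choose η hη0 hη using hch
  have hex : ∃ η0 : ℝ, 0 < η0 ∧ η0 < δ ∧ ∀ i, ρ i * η0 ≤ η i := by
    have h1 : ∀ i, ∀ᶠ x : ℝ in 𝓝[>] 0, ρ i * x ≤ η i := by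
      intro i
      have h2 : Tendsto (fun x : ℝ => ρ i * x) (𝓝[>] 0) (𝓝 (ρ i * 0)) :=
        ((continuous_const.mul continuous_id).tendsto 0).mono_left nhdsWithin_le_nhds
      rw [mul_zero] at h2
      exact h2.eventually (ge_mem_nhds (hη0 i))
    have h3 : ∀ᶠ x : ℝ in 𝓝[>] 0, x < δ := nhdsWithin_le_nhds (gt_mem_nhds hδ)
    obtain ⟨x, hx1, hx2, hx3⟩ := ((eventually_all.2 h1).and (h3.and self_mem_nhdsWithin)).exists
    exact ⟨x, hx3, hx2, hx1⟩
  obtain ⟨η0, hη00, hη0δ, hη0ρ⟩ := hex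
  refine ⟨η0, hη00, fun n a b hab hno => ?_⟩
  rcases Nat.eq_zero_or_pos n with hn | hn
  · subst hn
    simp only [Finset.range_zero, Finset.sum_empty, mul_zero, zero_add]
    exact hε.le
  obtain ⟨i0, -⟩ := hcov (a 0) (hab 0 hn).1
  -- the arc of each interval
  have hk : ∀ j, ∃ i, j < n → a j ∈ Set.Icc (A i) (B i) ∧ b j ∈ Set.Icc (A i) (B i) := by
    intro j
    by_cases hj : j < n
    · obtain ⟨i, hi⟩ := hcov (a j) (hab j hj).1
      have h1 := ball_mem (hab j hj).2.1 (lt_of_le_of_lt (hab j hj).2.2 hη0δ) hδ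
      exact ⟨i, fun _ => ⟨hi h1.1, hi h1.2⟩⟩
    · exact ⟨i0, fun h => absurd h hj⟩
  choose k hk using hk
  have hle : ∀ i, A i ≤ B i := fun i => (hq i).2.le
  obtain ⟨cl, hcl⟩ : ∃ cl : ι → unitInterval → unitInterval, ∀ i w,
      cl i w = (Set.projIcc (A i) (B i) (hle i) w : unitInterval) := ⟨_, fun _ _ => rfl⟩
  have hclm : ∀ i w, cl i w ∈ Set.Icc (A i) (B i) := fun i w => by
    rw [hcl]
    exact (Set.projIcc (A i) (B i) (hle i) w).2
  have hclmono : ∀ i w w', w ≤ w' → cl i w ≤ cl i w' := fun i w w' h => by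
    rw [hcl, hcl]
    exact Set.monotone_projIcc (hle i) h
  have hclid : ∀ i, ∀ w ∈ Set.Icc (A i) (B i), cl i w = w := fun i w hw => by
    rw [hcl, Set.projIcc_of_mem (hle i) hw]
  have hone : ∀ i, ∑ j ∈ Finset.range n, (if k j = i then psi (dist (p.1 (a j)) (p.1 (b j))) else 0) ≤
      C * p.2 * ∑ j ∈ Finset.range n, (if k j = i then ((b j : ℝ) - a j) else 0) + ε' := by
    intro i
    have haff := (hq i).2
    have hμ := hη i n (fun j => lam i (cl i (a j)))
      (fun j => if k j = i then lam i (cl i (b j)) else lam i (cl i (a j))) ?_ ?_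
    · refine le_trans (le_of_eq ?_) (hμ.trans (le_of_eq ?_))
      · refine Finset.sum_congr rfl fun j hj => ?_
        rw [Finset.mem_range] at hj
        split_ifs with h
        · have h1 := hk j hj
          rw [h] at h1
          rw [hclid i _ h1.1, hclid i _ h1.2, haff.dist h1.1 h1.2]
        · rw [dist_self, psi_zero]
      · congr 1
        rw [haff.pq, Finset.mul_sum, Finset.mul_sum]
        refine Finset.sum_congr rfl fun j hj => ?_
        rw [Finset.mem_range] at hj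
        split_ifs with h
        · have h1 := hk j hj
          rw [h] at h1
          rw [hclid i _ h1.1, hclid i _ h1.2, haff.aff _ h1.1 _ h1.2]
          ring
        · simp
    · intro j hj
      have hab' := hab j hj
      split_ifs with h
      · have h1 := hk j hj
        rw [h] at h1
        rw [hclid i _ h1.1, hclid i _ h1.2]
        refine ⟨haff.mono h1.1 h1.2 hab'.2.1, ?_⟩
        rw [haff.aff _ h1.1 _ h1.2]
        exact (mul_le_mul_of_nonneg_left hab'.2.2 haff.ρ0.le).trans (hη0ρ i)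
      · exact ⟨le_rfl, by rw [sub_self]; exact (hη0 i).le⟩
    · intro j l hjl hln
      have h1 := hno j l hjl hln
      have h2 := (hab j (by omega)).2.1
      split_ifs with h
      · exact haff.mono (hclm _ _) (hclm _ _) (hclmono _ _ _ h1)
      · exact haff.mono (hclm _ _) (hclm _ _) (hclmono _ _ _ (h2.trans h1))
  have hsum : ∀ g : ℕ → ℝ, ∑ j ∈ Finset.range n, g j =
      ∑ i, ∑ j ∈ Finset.range n, (if k j = i then g j else 0) := by
    intro g
    rw [Finset.sum_comm]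
    refine Finset.sum_congr rfl fun j _ => ?_
    rw [Finset.sum_ite_eq, if_pos (Finset.mem_univ _)]
  rw [hsum, hsum (fun j => ((b j : ℝ) - a j)), Finset.mul_sum]
  refine (Finset.sum_le_sum fun i _ => hone i).trans ?_
  rw [Finset.sum_add_distrib]
  have h5 : ∑ _i : ι, ε' ≤ ε := by
    rw [Finset.sum_const, Finset.card_univ, nsmul_eq_mul, hε', mul_div_assoc', div_le_iff₀ (by positivity)]
    nlinarith
  linarith

/-- From the upper bound for the `ψ`-sums to the `ψ`-variation. -/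
theorem Vpsi_le' {f : C(unitInterval, ℂ)} {T C : ℝ} (hT : 0 < T) (hC : 0 < C)
    {s t : unitInterval} (hst : s ≤ t) (h : UPK f T C (Set.Icc s t)) :
    Vpsi f s t ≤ ENNReal.ofReal (C * T * ((t : ℝ) - s)) := by
  have hst' : (s : ℝ) ≤ t := hst
  refine le_of_forall_pos_le_add ?_
  intro ε hε
  by_cases hεt : ε = ⊤
  · rw [hεt, add_top]; exact le_top
  have hε0 : 0 < ε.toReal := ENNReal.toReal_pos hε.ne' hεt
  obtain ⟨η, hη, h1⟩ := h ε.toReal hε0
  unfold Vpsi
  refine iInf_le_of_le η (iInf_le_of_le hη ?_)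
  refine iSup_le fun n => iSup_le fun τ => iSup_le fun hτ => ?_
  obtain ⟨hm, h0, hn, hmesh⟩ := hτ
  have h2 := h1 n τ (fun i => τ (i + 1)) (fun i hi => ⟨⟨by rw [← h0]; exact hm (Nat.zero_le _),
    by rw [← hn]; exact hm hi.le⟩, hm (Nat.le_succ i), hmesh i hi⟩)
    (fun i j hij _ => hm hij)
  have h3 : ∑ i ∈ Finset.range n, ((τ (i + 1) : ℝ) - τ i) = (t : ℝ) - s := by
    rw [Finset.sum_range_sub (fun i => (τ i : ℝ)), h0, hn]
  rw [h3] at h2
  refine (ENNReal.ofReal_le_ofReal h2).trans ?_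
  rw [ENNReal.ofReal_add (mul_nonneg (by positivity) (by linarith)) hε0.le,
    ENNReal.ofReal_toReal hεt]

/-! ### Lower bound -/

/-- The lower bound on one arc. -/
theorem vg_arc {p q : X} {z : ℂ} {A B : unitInterval} {lam : unitInterval → unitInterval}
    {ρ : ℝ} (haff : Aff p q z A B lam ρ) {c : ℝ} (hL : LOF q.1 q.2 c) {s t : unitInterval}
    (hs : s ∈ Set.Icc A B) (ht : t ∈ Set.Icc A B) (hst : s ≤ t) {η : ℝ} (hη : 0 < η) {x : ℝ}
    (hx : x < c * p.2 * ((t : ℝ) - s)) : VG p.1 η s t x := by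
  have h1 := haff.aff s hs t ht
  have hρ := haff.ρ0
  have hst' : (s : ℝ) ≤ t := hst
  obtain ⟨n, τ, g1, g2, g3, g4, g5⟩ := hL (lam s) (lam t) (haff.mono hs ht hst) (ρ * η)
    (by positivity) x (by
      rw [h1, ← mul_assoc, mul_assoc c, ← haff.pq]
      exact hx)
  -- the inverse of the affine map
  have hinv : ∀ y : unitInterval, lam s ≤ y → y ≤ lam t →
      s + ((y : ℝ) - lam s) / ρ ∈ Set.Icc (s : ℝ) t := by
    intro y hy1 hy2
    have hy1' : (lam s : ℝ) ≤ y := hy1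
    have hy2' : (y : ℝ) ≤ lam t := hy2
    constructor
    · have : 0 ≤ ((y : ℝ) - lam s) / ρ := div_nonneg (by linarith) hρ.le
      linarith
    · have : ((y : ℝ) - lam s) / ρ ≤ (t : ℝ) - s := by
        rw [div_le_iff₀ hρ]
        nlinarith
      linarith
  obtain ⟨σ, hσ⟩ : ∃ σ : ℕ → unitInterval, ∀ i, (σ i : ℝ) =
      (Set.projIcc (s : ℝ) t hst' (s + ((τ i : ℝ) - lam s) / ρ) : ℝ) := by
    refine ⟨fun i => ⟨(Set.projIcc (s : ℝ) t hst' (s + ((τ i : ℝ) - lam s) / ρ) : ℝ), ?_⟩,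
      fun i => rfl⟩
    have h2 := (Set.projIcc (s : ℝ) t hst' (s + ((τ i : ℝ) - lam s) / ρ)).2
    exact ⟨s.2.1.trans h2.1, h2.2.trans t.2.2⟩
  have hσm : ∀ i ≤ n, (σ i : ℝ) = s + ((τ i : ℝ) - lam s) / ρ := by
    intro i hi
    rw [hσ, Set.projIcc_of_mem]
    exact hinv _ (by rw [← g2]; exact g1 (Nat.zero_le _)) (by rw [← g3]; exact g1 hi)
  have hσI : ∀ i, σ i ∈ Set.Icc s t := by
    intro i
    have h2 := (Set.projIcc (s : ℝ) t hst' (s + ((τ i : ℝ) - lam s) / ρ)).2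
    rw [← hσ] at h2
    exact ⟨h2.1, h2.2⟩
  have hσAB : ∀ i, σ i ∈ Set.Icc A B := fun i =>
    ⟨hs.1.trans (hσI i).1, (hσI i).2.trans ht.2⟩
  have hlam : ∀ i ≤ n, lam (σ i) = τ i := by
    intro i hi
    have h2 := haff.aff s hs (σ i) (hσAB i)
    rw [hσm i hi] at h2
    have h3 : (lam (σ i) : ℝ) = τ i := by
      have : ρ * ((s : ℝ) + ((τ i : ℝ) - lam s) / ρ - s) = (τ i : ℝ) - lam s := by
        field_simp
        ring
      linarith
    exact Subtype.ext h3
  refine ⟨n, σ, ?_, ?_, ?_, ?_, ?_⟩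
  · intro i j hij
    have h2 : (τ i : ℝ) ≤ τ j := g1 hij
    have h3 : (σ i : ℝ) ≤ σ j := by
      rw [hσ, hσ]
      refine Set.monotone_projIcc hst' ?_
      have : ((τ i : ℝ) - lam s) / ρ ≤ ((τ j : ℝ) - lam s) / ρ :=
        div_le_div_of_nonneg_right (by linarith) hρ.le
      linarith
    exact h3
  · refine Subtype.ext ?_
    rw [hσm 0 (Nat.zero_le _), g2]
    simp
  · refine Subtype.ext ?_
    rw [hσm n le_rfl, g3, h1]
    field_simp
    ring
  · intro i hi
    rw [hσm i hi.le, hσm (i + 1) hi]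
    have h2 := g4 i hi
    have h3 : ((s : ℝ) + ((τ (i + 1) : ℝ) - lam s) / ρ) - (s + ((τ i : ℝ) - lam s) / ρ) =
        ((τ (i + 1) : ℝ) - τ i) / ρ := by ring
    rw [h3, div_le_iff₀ hρ]
    linarith
  · refine g5.trans (le_of_eq ?_)
    refine Finset.sum_congr rfl fun i hi => ?_
    rw [Finset.mem_range] at hi
    rw [haff.dist (hσAB i) (hσAB (i + 1)), hlam i hi.le, hlam (i + 1) hi]

/-- The lower bound on compact intervals of times in the open square. -/
theorem vg_open {p : X} (h0 : p.1 0 = p.1 1) {G : Set X} {c : ℝ} (hc : 0 < c)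
    (hG : ∀ q ∈ G, 0 < q.2 ∧ LOF q.1 q.2 c) (hl : LocG G p) {s t : unitInterval} (hst : s ≤ t)
    (hs : ∀ u ∈ Set.Icc s t, p.1 u ∈ sq) {η : ℝ} (hη : 0 < η) {x : ℝ}
    (hx : x < c * p.2 * ((t : ℝ) - s)) : VG p.1 η s t x := by
  obtain ⟨ι, hι, q, z, A, B, lam, ρ, δ, hδ, hq, hcov⟩ := cover h0 (fun q hq => (hG q hq).1) hl
    isCompact_Icc hs
  have key : ∀ m : ℕ, ∀ w : unitInterval, s ≤ w → w ≤ t → (w : ℝ) - s < (m + 1) * (δ / 2) →
      ∀ x : ℝ, x < c * p.2 * ((w : ℝ) - s) → VG p.1 η s w x := by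
    intro m
    induction m with
    | zero =>
      intro w hsw hwt hm x hx
      obtain ⟨i, hi⟩ := hcov s ⟨le_rfl, hst⟩
      have h1 := ball_mem hsw (show (w : ℝ) - s < δ by
        push_cast at hm
        linarith) hδ
      exact vg_arc (hq i).2 (hG _ (hq i).1).2 (hi h1.1) (hi h1.2) hsw hη hx
    | succ m ih =>
      intro w hsw hwt hm x hx
      have hsw' : (s : ℝ) ≤ w := hsw
      by_cases hlt : (w : ℝ) - s < (m + 1) * (δ / 2)
      · exact ih w hsw hwt hlt x hx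
      rw [not_lt] at hlt
      have hm0 : (0 : ℝ) ≤ m := Nat.cast_nonneg m
      -- the previous point
      obtain ⟨v, hv⟩ : ∃ v : unitInterval, (v : ℝ) = w - δ / 2 := by
        refine ⟨⟨w - δ / 2, ?_, ?_⟩, rfl⟩
        · nlinarith [s.2.1]
        · linarith [w.2.2]
      have hsv : s ≤ v := by
        have : (s : ℝ) ≤ v := by rw [hv]; nlinarith
        exact this
      have hvw : v ≤ w := by
        have : (v : ℝ) ≤ w := by rw [hv]; linarith
        exact this
      obtain ⟨g, hg⟩ : ∃ g : ℝ, g = c * p.2 * ((w : ℝ) - s) - x := ⟨_, rfl⟩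
      have hg0 : 0 < g := by rw [hg]; linarith
      have h1 := ih v hsv (hvw.trans hwt) (by
        rw [hv]
        push_cast at hm
        linarith) (c * p.2 * ((v : ℝ) - s) - g / 2) (by linarith)
      have hvt : v ∈ Set.Icc s t := ⟨hsv, hvw.trans hwt⟩
      obtain ⟨i, hi⟩ := hcov v hvt
      have h2 := ball_mem hvw (show (w : ℝ) - v < δ by rw [hv]; linarith) hδ
      have h3 := vg_arc (hq i).2 (hG _ (hq i).1).2 (hi h2.1) (hi h2.2) hvw hη
        (x := c * p.2 * ((w : ℝ) - v) - g / 2) (by linarith)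
      refine (h1.add h3).le ?_
      rw [hg]
      linarith
  obtain ⟨m, hm⟩ := exists_nat_gt (((t : ℝ) - s) / (δ / 2))
  refine key m t hst le_rfl ?_ x hx
  rw [div_lt_iff₀ (by positivity)] at hm
  have : (0 : ℝ) < δ / 2 := by positivity
  linarith

/-- The distance to the boundary of the square. -/
noncomputable def dsq (z : ℂ) : ℝ := min (min z.re (1 - z.re)) (min z.im (1 - z.im))

theorem dsq_cont : Continuous dsq := by
  unfold dsq
  fun_prop

theorem dsq_pos {z : ℂ} : 0 < dsq z ↔ z ∈ sq := by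
  unfold dsq Pool.Agent.Y995.LG.sq
  rw [lt_min_iff, lt_min_iff, lt_min_iff]
  constructor
  · rintro ⟨⟨h1, h2⟩, h3, h4⟩
    exact ⟨h1, by linarith, h3, by linarith⟩
  · rintro ⟨h1, h2, h3, h4⟩
    exact ⟨⟨h1, by linarith⟩, h3, by linarith⟩

theorem lof {p : X} (h0 : p.1 0 = p.1 1) (hT : 0 < p.2) {G : Set X} {c : ℝ} (hc : 0 < c)
    (hG : ∀ q ∈ G, 0 < q.2 ∧ LOF q.1 q.2 c) (hl : LocG G p)
    (hv : volume {t : unitInterval | p.1 t ∉ sq} = 0) : LOF p.1 p.2 c := by
  have key : ∀ c' : ℝ, 0 < c' → c' < c → LOF p.1 p.2 c' := by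
    intro c' hc' hcc
    refine Pool.Agent.R965.EV.lowall p.1 p.2 c' (fun u => dsq (p.1 u))
      (dsq_cont.comp p.1.continuous) hT hc' ?_ ?_
    · refine measure_mono_null (fun u hu => ?_) hv
      have hu' : dsq (p.1 u) ≤ 0 := hu
      intro h
      have := dsq_pos.2 h
      linarith
    · intro k s t hst hdep η hη
      have hst' : (s : ℝ) ≤ t := hst
      rcases eq_or_lt_of_le hst with h | h
      · subst h
        rw [sub_self, mul_zero]
        exact VG.refl _ _ _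
      · have hlt : (s : ℝ) < t := h
        refine vg_open h0 hc hG hl hst (fun u hu => ?_) hη ?_
        · rw [← dsq_pos]
          refine lt_trans ?_ (hdep u hu)
          positivity
        · have : 0 < p.2 * ((t : ℝ) - s) := mul_pos hT (by linarith)
          nlinarith
  intro s t hst η hη x hx
  have hst' : (s : ℝ) ≤ t := hst
  rcases eq_or_lt_of_le hst with h | h
  · subst h
    rw [sub_self, mul_zero] at hx
    exact (VG.refl _ _ _).le hx.le
  · have hlt : (s : ℝ) < t := h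
    have hpos : 0 < p.2 * ((t : ℝ) - s) := mul_pos hT (by linarith)
    obtain ⟨y, hy⟩ : ∃ y : ℝ, y = x / (p.2 * ((t : ℝ) - s)) := ⟨_, rfl⟩
    have hyc : y < c := by
      rw [hy, div_lt_iff₀ hpos]
      linarith
    obtain ⟨c', h1, h2⟩ := exists_between (max_lt hyc hc)
    refine key c' (lt_of_le_of_lt (le_max_right _ _) h1) h2 s t hst η hη x ?_
    have h3 : y < c' := lt_of_le_of_lt (le_max_left _ _) h1
    rw [hy, div_lt_iff₀ hpos] at h3
    linarith

end Pool.Agent.R967.Per
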